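import Mathlib
import Pool.Graph.R_seed8.Results.MP_2634a8_co.Fractional
import Pool.Graph.R_pool_sql_team_seeded_2aa45f1a.Q296.Nibble4

/-!
# Interchange distance of tournaments and packings of directed cycles: definitions and statements
-/

set_option autoImplicit false
set_option linter.all false

open Finset
open Pool.Agent.Results.MP_2634a8_co.Fractional (DiCycle)
open Pool.Agent.Q296.Nibble (Sys)

namespace Pool.Agent.H278.TD

section tour

variable {V : Type}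

/-- a tournament -/
def IsTour (T : V → V → Prop) : Prop := ∀ u v, (T u v → ¬ T v u) ∧ (u ≠ v → T u v ∨ T v u)

/-- the arcs on the pairs of `S` are reversed -/
def flp (S : Set (Sym2 V)) (T : V → V → Prop) (u v : V) : Prop :=
  (s(u, v) ∈ S ∧ T v u) ∨ (s(u, v) ∉ S ∧ T u v)

/-- reversal of the three arcs of a directed 3-cycle -/
def Step (T T' : V → V → Prop) : Prop :=
  ∃ a b c, T a b ∧ T b c ∧ T c a ∧ T' = flp {s(a, b), s(b, c), s(c, a)} T

/-- `T'` is obtained from `T` by exactly `m` reversals of directed 3-cycles -/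
def Reach : ℕ → (V → V → Prop) → (V → V → Prop) → Prop
  | 0, T, T' => T = T'
  | m + 1, T, T' => ∃ T₁, Step T T₁ ∧ Reach m T₁ T'

/-- the pairs of consecutive elements of a list -/
def edg : List V → Set (Sym2 V)
  | x :: y :: l => insert s(x, y) (edg (y :: l))
  | _ => ∅

variable [DecidableEq V]

/-- the out-degree -/
def odg (E : Finset (V × V)) (v : V) : ℕ := #(E.filter fun e => e.1 = v)

/-- the in-degree -/
def idg (E : Finset (V × V)) (v : V) : ℕ := #(E.filter fun e => e.2 = v)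

/-- balanced sets of arcs -/
def Bal (E : Finset (V × V)) : Prop := ∀ v, odg E v = idg E v

/-- no loops and no pairs of opposite arcs -/
def Ori (E : Finset (V × V)) : Prop := ∀ u v, (u, v) ∈ E → (v, u) ∉ E

/-- `c` pairwise disjoint nonempty balanced subsets -/
def Pack (E : Finset (V × V)) (c : ℕ) : Prop :=
  ∃ P : Fin c → Finset (V × V), (∀ i, (P i).Nonempty ∧ P i ⊆ E ∧ Bal (P i)) ∧ ∀ i j, i ≠ j → Disjoint (P i) (P j)

open Classical in
/-- the arcs of `T` which are reversed in `T'` -/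
noncomputable def dif [Fintype V] (T T' : V → V → Prop) : Finset (V × V) :=
  Finset.univ.filter fun e => T e.1 e.2 ∧ T' e.2 e.1

/-- the digraph of a set of arcs -/
def Adj (E : Finset (V × V)) (u v : V) : Prop := (u, v) ∈ E

/-- the set of the arcs of a directed cycle -/
def arcs {A : V → V → Prop} (C : DiCycle A) : Finset (V × V) :=
  Finset.univ.image fun i => (C.vert i, C.vert (i + 1))

end tour

section sample

variable {V : Type} [DecidableEq V] {s : ℕ}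

/-- out-degrees in the sampled digraph on `Fin s` -/
def so (E : Finset (V × V)) (φ : Fin s → V) (x : Fin s) : ℕ := #(Finset.univ.filter fun y => (φ x, φ y) ∈ E)

/-- in-degrees in the sampled digraph on `Fin s` -/
def si (E : Finset (V × V)) (φ : Fin s → V) (x : Fin s) : ℕ := #(Finset.univ.filter fun y => (φ y, φ x) ∈ E)

/-- the total weight of the sampled digraph -/
noncomputable def sy (E : Finset (V × V)) (y : V × V → ℝ) (φ : Fin s → V) : ℝ :=
  ∑ i, ∑ j, if (φ i, φ j) ∈ E then y (φ i, φ j) else 0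

end sample

/-! ### Tournaments -/

/-- **(cyc)** a nonempty balanced set of arcs contains a directed cycle. -/
def S_cyc : Prop := ∀ (V : Type) [Fintype V] [DecidableEq V] (P : Finset (V × V)), Bal P → Ori P → P.Nonempty →
  ∃ (a b : V) (l : List V), l ≠ [] ∧ (a :: b :: l).Nodup ∧
    List.IsChain (fun u v => (u, v) ∈ P) (a :: b :: (l ++ [a]))

/-- **(rev)** the reversal of a directed cycle of length `ℓ` needs `ℓ - 2` steps. -/
def S_rev : Prop := ∀ (V : Type) (T : V → V → Prop), IsTour T → ∀ (a b : V) (l : List V), l ≠ [] →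
  (a :: b :: l).Nodup → List.IsChain T (a :: b :: (l ++ [a])) →
    Reach l.length T (flp (edg (a :: b :: (l ++ [a]))) T)

/-- **(bal)** the difference of two tournaments with the same scores is balanced. -/
def S_bal : Prop := ∀ (V : Type) [Fintype V] [DecidableEq V] (T T' : V → V → Prop), IsTour T → IsTour T' →
  (∀ v, Nat.card {w // T v w} = Nat.card {w // T' v w}) → Bal (dif T T') ∧ Ori (dif T T')

/-- **(red)** the distance is at most `|D| - 2 c` if the difference `D` contains `c` disjoint balanced sets. -/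
def S_red : Prop := ∀ (V : Type) [Fintype V] [DecidableEq V] (T T' : V → V → Prop), IsTour T → IsTour T' →
  Bal (dif T T') → ∀ c, Pack (dif T T') c → ∃ m, m + 2 * c ≤ #(dif T T') ∧ Reach m T T'

/-! ### Linear programming -/

/-- **(lp)** linear programming duality. -/
def S_lp : Prop := ∀ (ι J : Type) [Fintype ι] [Fintype J] (a : ι → J → ℝ) (c : J → ℝ) (τ : ℝ), (∀ i j, 0 ≤ a i j) →
  (∀ j, 0 < c j) → (∀ y : J → ℝ, (∀ j, 0 ≤ y j) → (∀ i, 1 ≤ ∑ j, a i j * y j) → τ ≤ ∑ j, c j * y j) →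
  ∃ w : ι → ℝ, (∀ i, 0 ≤ w i) ∧ (∀ j, ∑ i, w i * a i j ≤ c j) ∧ τ ≤ ∑ i, w i

/-! ### Sampling -/

/-- **(av)** averages over the maps `Fin s → V`. -/
def S_av : Prop := ∀ (V : Type) [Fintype V] [DecidableEq V] (s : ℕ),
  (∀ (i j : Fin s), i ≠ j → ∀ g : V → V → ℝ,
    (Fintype.card V : ℝ) ^ 2 * ∑ φ : Fin s → V, g (φ i) (φ j) = (Fintype.card V : ℝ) ^ s * ∑ a, ∑ b, g a b) ∧
  (∀ (i j k : Fin s), i ≠ j → j ≠ k → i ≠ k → ∀ g : V → V → V → ℝ,
    (Fintype.card V : ℝ) ^ 3 * ∑ φ : Fin s → V, g (φ i) (φ j) (φ k) =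
      (Fintype.card V : ℝ) ^ s * ∑ a, ∑ b, ∑ c, g a b c)

/-- **(e4)** the number of the samples which contain three given vertices. -/
def S_e4 : Prop := ∀ (V : Type) [Fintype V] [DecidableEq V] (s : ℕ) (a b c : V), a ≠ b → b ≠ c → a ≠ c →
  (Fintype.card V : ℝ) ^ 3 * (#(univ.filter fun φ : Fin s → V => (∃ i, φ i = a) ∧ (∃ i, φ i = b) ∧ ∃ i, φ i = c) : ℝ) ≤
    (s : ℝ) ^ 3 * (Fintype.card V : ℝ) ^ s

/-- **(e1)** the average weight of the sampled digraph. -/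
def S_e1 : Prop := ∀ (V : Type) [Fintype V] [DecidableEq V] (s : ℕ) (E : Finset (V × V)) (y : V × V → ℝ), Ori E →
  (∀ e, 0 ≤ y e) → (Fintype.card V : ℝ) ^ 2 * ∑ φ : Fin s → V, sy E y φ ≤
    (s : ℝ) ^ 2 * (Fintype.card V : ℝ) ^ s * ∑ e ∈ E, y e

/-- **(e2)** the average of the squares of the degrees. -/
def S_e2 : Prop := ∀ (V : Type) [Fintype V] [DecidableEq V] (s : ℕ) (E : Finset (V × V)), Ori E →
  (s : ℝ) * (s - 1) * (s - 2) * (Fintype.card V : ℝ) ^ s * ∑ v, (odg E v : ℝ) ^ 2 ≤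
    (Fintype.card V : ℝ) ^ 3 * ∑ φ : Fin s → V, ∑ x, (so E φ x : ℝ) ^ 2

/-- **(e3)** the sampled digraph is nearly balanced. -/
def S_e3 : Prop := ∀ (V : Type) [Fintype V] [DecidableEq V] (s : ℕ) (E : Finset (V × V)), Ori E → Bal E →
  ∑ φ : Fin s → V, ∑ x, |(si E φ x : ℝ) - so E φ x| ≤ s * Real.sqrt s * (Fintype.card V : ℝ) ^ s

open Classical in
/-- **(loc)** the inequality for digraphs which are nearly balanced. -/
def S_loc : Prop := ∀ (W : Type) [Fintype W] (A : W → W → Prop), (∀ v, ¬ A v v) → ∀ w : W → W → ℝ, (∀ x y, 0 ≤ w x y) →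
  (∀ C : DiCycle A, 1 ≤ ∑ i, w (C.vert i) (C.vert (i + 1))) →
  ∑ x, ((#{u | A x u} : ℕ) : ℝ) * ((#{u | A x u} : ℕ) + 1) / 2 ≤
    (Fintype.card W : ℝ) * (∑ x, ∑ y with A x y, w x y) +
    (Fintype.card W : ℝ) * ∑ x, |((#{u | A u x} : ℕ) : ℝ) - (#{u | A x u} : ℕ)|

/-- **(good)** the inequality for one sample. -/
def S_good : Prop := ∀ (V : Type) [Fintype V] [DecidableEq V] (s : ℕ) (E : Finset (V × V)), Ori E →
  ∀ (y : V × V → ℝ), (∀ e, 0 ≤ y e) → ∀ θ : ℝ, 0 < θ → ∀ φ : Fin s → V,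
  (∀ C : DiCycle (Adj E), (∀ i, C.vert i ∈ Set.range φ) → θ ≤ ∑ e ∈ arcs C, y e) →
  θ * ∑ x, (so E φ x : ℝ) ^ 2 / 2 ≤ s * sy E y φ + θ * s * ∑ x, |(si E φ x : ℝ) - so E φ x|

/-- **(dual)** the dual inequality. -/
def S_dual : Prop := ∀ (V : Type) [Fintype V] [Nonempty V] [DecidableEq V] (s : ℕ), 3 ≤ s → ∀ (E : Finset (V × V)),
  Ori E → Bal E → ∀ (y : V × V → ℝ) (z : (V × V) × (V × V) → ℝ), (∀ e, 0 ≤ y e) → (∀ p, 0 ≤ z p) →
  (∀ C : DiCycle (Adj E), C.len + 2 ≤ s → 1 ≤ ∑ e ∈ arcs C, y e + ∑ p ∈ (arcs C).offDiag, z p) →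
  ∀ δ : ℝ, 0 < δ → δ * s ^ 2 < 1 →
    (1 - δ * s ^ 2) * (((s - 1) * (s - 2) / (2 * s ^ 2)) * ((∑ v, (odg E v : ℝ) ^ 2) / Fintype.card V) -
      (Fintype.card V : ℝ) ^ 2 / Real.sqrt s) ≤
    ∑ e ∈ E, y e + (∑ p ∈ E.offDiag, z p) / δ * (s ^ 3 / Fintype.card V)

/-! ### Packings -/

open Classical in
/-- a spread fractional packing of directed cycles of bounded length -/
structure FP {V : Type} [Fintype V] [DecidableEq V] (E : Finset (V × V)) (s : ℕ) (b : ℝ) (τ : ℝ)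
    (w : Finset (V × V) → ℝ) : Prop where
  nonneg : ∀ S, 0 ≤ w S
  supp : ∀ S, w S ≠ 0 → ∃ C : DiCycle (Adj E), arcs C = S ∧ C.len + 2 ≤ s
  load : ∀ e, ∑ S with e ∈ S, w S ≤ 1
  codeg : ∀ e f, e ≠ f → ∑ S with (e ∈ S ∧ f ∈ S), w S ≤ b
  total : τ ≤ ∑ S, w S

/-- **(frac)** spread fractional packings. -/
def S_frac : Prop := ∀ ε : ℝ, 0 < ε → ∃ s : ℕ, ∀ b : ℝ, 0 < b → ∃ n₀ : ℕ, ∀ (V : Type) [Fintype V] [DecidableEq V],
  n₀ ≤ Fintype.card V → ∀ E : Finset (V × V), Ori E → Bal E → ∃ w,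
    FP E s b ((∑ v, (odg E v : ℝ) ^ 2) / (2 * Fintype.card V) - ε * (Fintype.card V : ℝ) ^ 2) w

/-- **(nib)** spread fractional packings give packings. -/
def S_nib : Prop := ∀ (s : ℕ) (η : ℝ), 0 < η → ∃ b : ℝ, 0 < b ∧ ∀ (V : Type) [Fintype V] [DecidableEq V]
  (E : Finset (V × V)) (τ : ℝ) (w : Finset (V × V) → ℝ), Ori E → FP E s b τ w → 0 ≤ τ →
    ∃ (c : ℕ) (C : Fin c → DiCycle (Adj E)), (∀ i j, i ≠ j → Disjoint (arcs (C i)) (arcs (C j))) ∧ (1 - η) * τ ≤ c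

/-- **(pk)** packings of directed cycles in balanced oriented graphs. -/
def S_pk : Prop := ∀ ε : ℝ, 0 < ε → ∃ n₀ : ℕ, ∀ (V : Type) [Fintype V] [DecidableEq V], n₀ ≤ Fintype.card V →
  ∀ E : Finset (V × V), Ori E → Bal E → ∃ (c : ℕ) (C : Fin c → DiCycle (Adj E)),
    (∀ i j, i ≠ j → Disjoint (arcs (C i)) (arcs (C j))) ∧
    (∑ v, (odg E v : ℝ) ^ 2) / (2 * Fintype.card V) - ε * (Fintype.card V : ℝ) ^ 2 ≤ c

/-- **(dig)** packings of directed cycles in balanced digraphs, pairs of opposite arcs are allowed. -/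
def S_dig : Prop := ∀ ε : ℝ, 0 < ε → ∃ n₀ : ℕ, ∀ (V : Type) [Fintype V] [DecidableEq V], n₀ ≤ Fintype.card V →
  ∀ E : Finset (V × V), (∀ v, (v, v) ∉ E) → Bal E → ∃ (c : ℕ) (C : Fin c → DiCycle (Adj E)),
    (∀ i j, i ≠ j → Disjoint (arcs (C i)) (arcs (C j))) ∧
    (∑ v, (odg E v : ℝ) ^ 2) / (2 * Fintype.card V) - ε * (Fintype.card V : ℝ) ^ 2 ≤ c

/-- **(fin)** the diameter of the interchange graphs. -/
def S_fin : Prop := ∀ ε : ℝ, 0 < ε → ∃ n₀ : ℕ, ∀ n ≥ n₀, ∀ T T' : Fin n → Fin n → Prop, IsTour T → IsTour T' →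
  (∀ v, Nat.card {w // T v w} = Nat.card {w // T' v w}) → ∃ m : ℕ, (m : ℝ) ≤ (1 / 4 + ε) * (n : ℝ) ^ 2 ∧ Reach m T T'

end Pool.Agent.H278.TD
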