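import Pool.Agent.H278.TD.Def

/-!
# Averages over the maps `Fin s → V` (helper296, for helper278)
-/

set_option autoImplicit false

open Finset

namespace Pool.Agent.H296.TD

variable {V ι : Type} [Fintype V] [Fintype ι] [DecidableEq ι]

/-- exchange of the value at `i` -/
def sw (i : ι) : V × (ι → V) ≃ V × (ι → V) where
  toFun z := (z.2 i, Function.update z.2 i z.1)
  invFun z := (z.2 i, Function.update z.2 i z.1)
  left_inv z := by simp
  right_inv z := by simp

theorem upd (i : ι) (G : (ι → V) → ℝ) :
    (Fintype.card V : ℝ) * ∑ φ : ι → V, G φ = ∑ a : V, ∑ φ : ι → V, G (Function.update φ i a) := by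
  rw [← Fintype.sum_prod_type' (f := fun (a : V) (φ : ι → V) => G (Function.update φ i a))]
  have h : ∑ z : V × (ι → V), G (Function.update z.2 i z.1) = ∑ z : V × (ι → V), G z.2 :=
    Fintype.sum_equiv (sw i) _ _ fun z => rfl
  rw [h, Fintype.sum_prod_type]
  simp

end Pool.Agent.H296.TD

namespace Pool.Agent.H296.TD

open Pool.Agent.H278.TD

theorem av : S_av := by
  intro V _ _ s
  refine ⟨?_, ?_⟩
  · intro i j hij g
    have h1 := upd (V := V) i (fun φ : Fin s → V => g (φ i) (φ j))
    have h2 : ∀ a : V, (Fintype.card V : ℝ) * ∑ φ : Fin s → V, g a (φ j) =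
        (Fintype.card V : ℝ) ^ s * ∑ b, g a b := by
      intro a
      rw [upd (V := V) j (fun φ : Fin s → V => g a (φ j)), Finset.mul_sum]
      refine Finset.sum_congr rfl fun b _ => ?_
      simp
    have h3 : ∑ a : V, ∑ φ : Fin s → V, g (Function.update φ i a i) (Function.update φ i a j) =
        ∑ a : V, ∑ φ : Fin s → V, g a (φ j) := by
      refine Finset.sum_congr rfl fun a _ => Finset.sum_congr rfl fun φ _ => ?_
      rw [Function.update_self, Function.update_of_ne hij.symm]
    calc (Fintype.card V : ℝ) ^ 2 * ∑ φ : Fin s → V, g (φ i) (φ j)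
        = (Fintype.card V : ℝ) * ((Fintype.card V : ℝ) * ∑ φ : Fin s → V, g (φ i) (φ j)) := by ring
      _ = (Fintype.card V : ℝ) * ∑ a : V, ∑ φ : Fin s → V, g a (φ j) := by rw [h1, h3]
      _ = ∑ a : V, (Fintype.card V : ℝ) ^ s * ∑ b, g a b := by
          rw [Finset.mul_sum]
          exact Finset.sum_congr rfl fun a _ => h2 a
      _ = _ := by rw [Finset.mul_sum]
  · intro i j k hij hjk hik g
    have h1 := upd (V := V) i (fun φ : Fin s → V => g (φ i) (φ j) (φ k))
    have h2 : ∀ a b : V, (Fintype.card V : ℝ) * ∑ φ : Fin s → V, g a b (φ k) =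
        (Fintype.card V : ℝ) ^ s * ∑ c, g a b c := by
      intro a b
      rw [upd (V := V) k (fun φ : Fin s → V => g a b (φ k)), Finset.mul_sum]
      refine Finset.sum_congr rfl fun c _ => ?_
      simp
    have h3 : ∑ a : V, ∑ φ : Fin s → V, g (Function.update φ i a i) (Function.update φ i a j)
        (Function.update φ i a k) = ∑ a : V, ∑ φ : Fin s → V, g a (φ j) (φ k) := by
      refine Finset.sum_congr rfl fun a _ => Finset.sum_congr rfl fun φ _ => ?_
      rw [Function.update_self, Function.update_of_ne hij.symm, Function.update_of_ne hik.symm]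
    have h4 : ∀ a : V, (Fintype.card V : ℝ) * ∑ φ : Fin s → V, g a (φ j) (φ k) =
        ∑ b : V, ∑ φ : Fin s → V, g a b (φ k) := by
      intro a
      rw [upd (V := V) j (fun φ : Fin s → V => g a (φ j) (φ k))]
      refine Finset.sum_congr rfl fun b _ => Finset.sum_congr rfl fun φ _ => ?_
      rw [Function.update_self, Function.update_of_ne hjk.symm]
    calc (Fintype.card V : ℝ) ^ 3 * ∑ φ : Fin s → V, g (φ i) (φ j) (φ k)
        = (Fintype.card V : ℝ) * ((Fintype.card V : ℝ) * ((Fintype.card V : ℝ) *
            ∑ φ : Fin s → V, g (φ i) (φ j) (φ k))) := by ring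
      _ = (Fintype.card V : ℝ) * ((Fintype.card V : ℝ) *
            ∑ a : V, ∑ φ : Fin s → V, g a (φ j) (φ k)) := by rw [h1, h3]
      _ = (Fintype.card V : ℝ) * ∑ a : V, ∑ b : V, ∑ φ : Fin s → V, g a b (φ k) := by
          congr 1
          rw [Finset.mul_sum]
          exact Finset.sum_congr rfl fun a _ => h4 a
      _ = ∑ a : V, ∑ b : V, (Fintype.card V : ℝ) ^ s * ∑ c, g a b c := by
          rw [Finset.mul_sum]
          refine Finset.sum_congr rfl fun a _ => ?_
          rw [Finset.mul_sum]
          exact Finset.sum_congr rfl fun b _ => h2 a b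
      _ = _ := by
          rw [Finset.mul_sum]
          refine Finset.sum_congr rfl fun a _ => ?_
          rw [Finset.mul_sum]

end Pool.Agent.H296.TD
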