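import Pool.Agent.H278.TD.Def

/-! Linear programming duality (subtask lp of project TD). -/

set_option autoImplicit false

namespace Pool.Agent.H84.TD

open Finset Pool.Agent.H278.TD

theorem lp : S_lp := by
  classical
  intro ι J _ _ a c τ ha hc hy
  rcases le_or_gt τ 0 with hτ | hτ
  · refine ⟨fun _ => 0, fun _ => le_rfl, fun j => ?_, ?_⟩
    · simp only [zero_mul, sum_const_zero]
      exact (hc j).le
    · simpa using hτ
  set s : Set (J → ℝ) := convexHull ℝ (Set.range a) with hs
  set t : Set (J → ℝ) := {x | ∀ j, τ * x j ≤ c j} with ht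
  by_cases hdisj : Disjoint s t
  · exfalso
    have hs2 : IsCompact s := (Set.finite_range a).isCompact_convexHull (𝕜 := ℝ)
    have ht1 : Convex ℝ t := by
      intro x hx y hy' p q hp hq hpq j
      have h1 := hx j
      have h2 := hy' j
      change τ * (p * x j + q * y j) ≤ c j
      have h3 := mul_le_mul_of_nonneg_left h1 hp
      have h4 := mul_le_mul_of_nonneg_left h2 hq
      have h5 : p * c j + q * c j = c j := by rw [← add_mul, hpq, one_mul]
      linarith
    have ht2 : IsClosed t := by
      have h : t = ⋂ j, {x : J → ℝ | τ * x j ≤ c j} := by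
        ext x
        simp [ht]
      rw [h]
      exact isClosed_iInter fun j => isClosed_le (continuous_const.mul (continuous_apply j))
        continuous_const
    obtain ⟨f, u, v, hf1, huv, hf2⟩ :=
      geometric_hahn_banach_compact_closed (convex_convexHull ℝ _) hs2 ht1 ht2 hdisj
    set g : J → ℝ := fun i => f (fun j => if i = j then 1 else 0) with hg
    have hfg : ∀ x : J → ℝ, f x = ∑ j, x j * g j := by
      intro x
      have := LinearMap.pi_apply_eq_sum_univ (f : (J → ℝ) →ₗ[ℝ] ℝ) x
      simpa [hg, smul_eq_mul] using this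
    set b0 : J → ℝ := fun j => c j / τ with hb0
    have hb0t : b0 ∈ t := by
      intro j
      change τ * (c j / τ) ≤ c j
      rw [mul_div_cancel₀ _ hτ.ne']
    have hg0 : ∀ i, g i ≤ 0 := by
      intro i
      by_contra hpos
      push Not at hpos
      have hv := hf2 b0 hb0t
      set r : ℝ := (f b0 - v) / g i with hr
      have hr0 : 0 ≤ r := div_nonneg (by linarith) hpos.le
      have hmem : (b0 - r • (fun j => if i = j then (1 : ℝ) else 0)) ∈ t := by
        intro j
        change τ * (c j / τ - r * (if i = j then 1 else 0)) ≤ c j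
        rw [mul_sub, mul_div_cancel₀ _ hτ.ne']
        have : 0 ≤ τ * (r * (if i = j then (1 : ℝ) else 0)) := by
          split_ifs
          · positivity
          · simp
        linarith
      have h3 := hf2 _ hmem
      rw [map_sub, map_smul, smul_eq_mul] at h3
      have h4 : r * g i = f b0 - v := by
        rw [hr]
        field_simp
      have h5 : f (fun j => if i = j then (1 : ℝ) else 0) = g i := rfl
      rw [h5, h4] at h3
      linarith
    have h6 : f b0 = (∑ j, c j * g j) / τ := by
      rw [hfg, sum_div]
      refine sum_congr rfl fun j _ => ?_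
      change c j / τ * g j = c j * g j / τ
      ring
    have h7 : v * τ < ∑ j, c j * g j := by
      have := hf2 b0 hb0t
      rw [h6, lt_div_iff₀ hτ] at this
      exact this
    have h8 : ∑ j, c j * g j ≤ 0 :=
      sum_nonpos fun j _ => mul_nonpos_of_nonneg_of_nonpos (hc j).le (hg0 j)
    have hv0 : 0 < -v := by
      by_contra hcon
      push Not at hcon
      have : 0 ≤ v * τ := mul_nonneg (by linarith) hτ.le
      linarith
    have h9 := hy (fun j => (- g j) / (-v)) (fun j => div_nonneg (by linarith [hg0 j]) hv0.le) ?_
    · have h10 : ∑ j, c j * ((- g j) / (-v)) = (- ∑ j, c j * g j) / (-v) := by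
        rw [← sum_neg_distrib, sum_div]
        refine sum_congr rfl fun j _ => ?_
        ring
      rw [h10, le_div_iff₀ hv0] at h9
      linarith
    · intro i
      have h11 : f (a i) < v := (hf1 _ (subset_convexHull ℝ _ ⟨i, rfl⟩)).trans huv
      rw [hfg] at h11
      have h12 : ∑ j, a i j * ((- g j) / (-v)) = (- ∑ j, a i j * g j) / (-v) := by
        rw [← sum_neg_distrib, sum_div]
        refine sum_congr rfl fun j _ => ?_
        ring
      rw [h12, le_div_iff₀ hv0]
      linarith
  · rw [Set.not_disjoint_iff] at hdisj
    obtain ⟨x, hxs, hxt⟩ := hdisj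
    rw [hs, mem_convexHull_iff_exists_fintype] at hxs
    obtain ⟨κ, hκ, w, z, hw, hw1, hz, hx⟩ := hxs
    choose C hC using hz
    have hsum : ∀ φ : ι → ℝ, ∑ i, (∑ l with C l = i, τ * w l) * φ i = ∑ l, τ * w l * φ (C l) := by
      intro φ
      rw [← sum_fiberwise univ C (fun l => τ * w l * φ (C l))]
      refine sum_congr rfl fun i _ => ?_
      rw [sum_mul]
      refine sum_congr rfl fun l hl => ?_
      rw [(mem_filter.1 hl).2]
    refine ⟨fun i => ∑ l with C l = i, τ * w l, fun i => ?_, fun j => ?_, ?_⟩
    · exact sum_nonneg fun l _ => mul_nonneg hτ.le (hw l)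
    · rw [hsum (fun i => a i j)]
      have h1 : ∑ l, τ * w l * a (C l) j = τ * x j := by
        rw [← hx, Finset.sum_apply, mul_sum]
        refine sum_congr rfl fun l _ => ?_
        rw [← hC l, Pi.smul_apply, smul_eq_mul, mul_assoc]
      rw [h1]
      exact hxt j
    · have h1 := hsum (fun _ => 1)
      simp only [mul_one] at h1
      rw [h1, ← mul_sum, hw1, mul_one]

end Pool.Agent.H84.TD
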