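import Pool.Agent.H278.TD.Def

set_option autoImplicit false

/-!
# The difference of two tournaments with the same scores is balanced
-/

open Finset

namespace Pool.Agent.H336.TD

open Pool.Agent.H278.TD

section

open Classical

theorem bal_split {V : Type} [Fintype V] {T T' : V → V → Prop} (hT : IsTour T) (hT' : IsTour T')
    (v : V) : #(univ.filter fun w => T v w ∧ T' v w) + #(univ.filter fun w => T v w ∧ T' w v) =
      Nat.card {w // T v w} := by
  rw [Nat.card_eq_fintype_card, Fintype.card_subtype, ← Finset.card_union_of_disjoint]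
  · congr 1
    ext w
    simp only [Finset.mem_union, Finset.mem_filter, Finset.mem_univ, true_and]
    constructor
    · rintro (h | h)
      · exact h.1
      · exact h.1
    · intro h
      have hne : v ≠ w := by
        intro he
        subst he
        exact (hT v v).1 h h
      rcases (hT' v w).2 hne with h' | h'
      · exact Or.inl ⟨h, h'⟩
      · exact Or.inr ⟨h, h'⟩
  · rw [Finset.disjoint_left]
    intro w h1 h2
    rw [Finset.mem_filter] at h1 h2
    exact (hT' v w).1 h1.2.2 h2.2.2

theorem bal_odg {V : Type} [Fintype V] [DecidableEq V] (T T' : V → V → Prop) (v : V) :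
    odg (dif T T') v = #(univ.filter fun w => T v w ∧ T' w v) := by
  unfold odg dif
  refine Finset.card_bij (fun e _ => e.2) ?_ ?_ ?_
  · rintro ⟨a, b⟩ h
    simp only [Finset.mem_filter, Finset.mem_univ, true_and] at h ⊢
    obtain ⟨h, rfl⟩ := h
    exact h
  · rintro ⟨a, b⟩ h ⟨a', b'⟩ h' hb
    simp only [Finset.mem_filter, Finset.mem_univ, true_and] at h h' hb
    rw [h.2, h'.2, hb]
  · intro b hb
    simp only [Finset.mem_filter, Finset.mem_univ, true_and] at hb
    refine ⟨(v, b), ?_, rfl⟩
    simp only [Finset.mem_filter, Finset.mem_univ, true_and]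
    exact ⟨hb, trivial⟩

theorem bal_idg {V : Type} [Fintype V] [DecidableEq V] (T T' : V → V → Prop) (v : V) :
    idg (dif T T') v = #(univ.filter fun w => T' v w ∧ T w v) := by
  unfold idg dif
  refine Finset.card_bij (fun e _ => e.1) ?_ ?_ ?_
  · rintro ⟨a, b⟩ h
    simp only [Finset.mem_filter, Finset.mem_univ, true_and] at h ⊢
    obtain ⟨h, rfl⟩ := h
    exact ⟨h.2, h.1⟩
  · rintro ⟨a, b⟩ h ⟨a', b'⟩ h' hb
    simp only [Finset.mem_filter, Finset.mem_univ, true_and] at h h' hb
    rw [h.2, h'.2, hb]
  · intro b hb
    simp only [Finset.mem_filter, Finset.mem_univ, true_and] at hb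
    refine ⟨(b, v), ?_, rfl⟩
    simp only [Finset.mem_filter, Finset.mem_univ, true_and]
    exact ⟨⟨hb.2, hb.1⟩, trivial⟩

end

/-- **(bal)** the difference of two tournaments with the same scores is balanced. -/
theorem bal : S_bal := by
  classical
  intro V _ _ T T' hT hT' hs
  refine ⟨fun v => ?_, fun u v h h' => ?_⟩
  · rw [bal_odg, bal_idg]
    have h1 := bal_split hT hT' v
    have h2 := bal_split hT' hT v
    have h3 : #(univ.filter fun w => T' v w ∧ T v w) = #(univ.filter fun w => T v w ∧ T' v w) := by
      congr 1
      ext w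
      simp only [Finset.mem_filter, Finset.mem_univ, true_and]
      exact and_comm
    have h4 := hs v
    omega
  · unfold dif at h h'
    rw [Finset.mem_filter] at h h'
    exact (hT u v).1 h.2.1 h'.2.1

end Pool.Agent.H336.TD
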