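import Pool.Agent.H278.TD.Def

set_option autoImplicit false

open Finset Pool.Agent.H278.TD

namespace Pool.Agent.H801.TD

theorem isChain_map_range {V : Type} (R : V → V → Prop) (g : ℕ → V) (h : ∀ i, R (g i) (g (i + 1)))
    (n : ℕ) : List.IsChain R ((List.range n).map g) := by
  rw [List.isChain_iff_getElem]
  intro i hi
  simp only [List.getElem_map, List.getElem_range]
  exact h i

theorem cyc : S_cyc := by
  intro V _ _ P hB hO hne
  classical
  let f : V → V := fun v => if h : ∃ w, (v, w) ∈ P then h.choose else v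
  have hf : ∀ v, (∃ w, (v, w) ∈ P) → (v, f v) ∈ P := by
    intro v h
    have : f v = h.choose := dif_pos h
    rw [this]
    exact h.choose_spec
  have hs : ∀ v w, (v, w) ∈ P → ∃ u, (w, u) ∈ P := by
    intro v w h
    have h1 : 0 < idg P w := Finset.card_pos.mpr ⟨(v, w), Finset.mem_filter.mpr ⟨h, rfl⟩⟩
    rw [← hB w] at h1
    obtain ⟨e, he⟩ := Finset.card_pos.mp h1
    rw [Finset.mem_filter] at he
    refine ⟨e.2, ?_⟩
    have h2 : (w, e.2) = e := by rw [← he.2]
    rw [h2]
    exact he.1
  obtain ⟨⟨x0, w0⟩, h0⟩ := hne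
  have horb : ∀ n, ∃ w, (f^[n] x0, w) ∈ P := by
    intro n
    induction n with
    | zero => exact ⟨w0, h0⟩
    | succ n ih =>
      rw [Function.iterate_succ_apply']
      exact hs _ _ (hf _ ih)
  obtain ⟨m, n, hmn, he⟩ := Finite.exists_ne_map_eq_of_infinite (fun n : ℕ => f^[n] x0)
  obtain ⟨x, k, hk, hx, hxo⟩ : ∃ (x : V) (k : ℕ), 0 < k ∧ f^[k] x = x ∧
      ∀ n, ∃ w, (f^[n] x, w) ∈ P := by
    rcases lt_or_gt_of_ne hmn with h | h
    · refine ⟨f^[m] x0, n - m, by omega, ?_, fun j => ?_⟩
      · rw [← Function.iterate_add_apply]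
        have : n - m + m = n := by omega
        rw [this]
        exact he.symm
      · rw [← Function.iterate_add_apply]
        exact horb _
    · refine ⟨f^[n] x0, m - n, by omega, ?_, fun j => ?_⟩
      · rw [← Function.iterate_add_apply]
        have : m - n + n = m := by omega
        rw [this]
        exact he
      · rw [← Function.iterate_add_apply]
        exact horb _
  have hper : Function.IsPeriodicPt f k x := hx
  have hp0 : 0 < Function.minimalPeriod f x := Function.IsPeriodicPt.minimalPeriod_pos hk hper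
  have hpx : f^[Function.minimalPeriod f x] x = x := Function.iterate_minimalPeriod
  have hinj := Function.iterate_injOn_Iio_minimalPeriod (f := f) (x := x)
  generalize hp : Function.minimalPeriod f x = p at hp0 hpx hinj
  have hstep : ∀ i, (f^[i] x, f^[i + 1] x) ∈ P := by
    intro i
    rw [Function.iterate_succ_apply']
    exact hf _ (hxo i)
  have hp1 : p ≠ 1 := by
    rintro rfl
    have h1 := hstep 0
    have h2 : f^[0 + 1] x = x := hpx
    have h3 : f^[0] x = x := rfl
    rw [h2, h3] at h1
    exact hO _ _ h1 h1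
  have hp2 : p ≠ 2 := by
    rintro rfl
    have h1 := hstep 0
    have h2 := hstep 1
    have h3 : f^[1 + 1] x = x := hpx
    have h4 : f^[0] x = x := rfl
    rw [h3] at h2
    rw [h4] at h1
    exact hO _ _ h1 h2
  obtain ⟨q, rfl⟩ : ∃ q, p = q + 3 := ⟨p - 3, by omega⟩
  have hlist : (List.range (q + 3)).map (fun i => f^[i] x) =
      x :: f x :: (List.range (q + 1)).map (fun i => f^[i + 2] x) := by
    rw [List.range_succ_eq_map, List.range_succ_eq_map]
    simp [List.map_map, Function.comp_def]
  refine ⟨x, f x, (List.range (q + 1)).map (fun i => f^[i + 2] x), ?_, ?_, ?_⟩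
  · simp
  · rw [← hlist]
    rw [List.nodup_map_iff_inj_on List.nodup_range]
    intro i hi j hj hij
    exact hinj (by simpa using hi) (by simpa using hj) hij
  · have h1 := isChain_map_range (fun u v => (u, v) ∈ P) (fun i => f^[i] x) hstep (q + 4)
    rw [List.range_succ, List.map_append, hlist] at h1
    simpa [hpx] using h1

end Pool.Agent.H801.TD
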