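import Pool.Agent.H278.TD.Def

/-!
# The dual inequality for packings of directed cycles, by sampling
-/

set_option autoImplicit false
set_option linter.all false

open Finset
open Pool.Agent.Results.MP_2634a8_co.Fractional (DiCycle)

namespace Pool.Agent.H59.TD

open Pool.Agent.H278.TD

/-- The number of the samples which contain the end-points of two different arcs. -/
theorem bad_count (h4 : S_e4) {V : Type} [Fintype V] [DecidableEq V] (s : ℕ) (E : Finset (V × V))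
    (hO : Ori E) (p : (V × V) × (V × V)) (hp : p ∈ E.offDiag) :
    (Fintype.card V : ℝ) ^ 3 * (#(univ.filter fun φ : Fin s → V => (∃ i, φ i = p.1.1) ∧
      (∃ i, φ i = p.1.2) ∧ (∃ i, φ i = p.2.1) ∧ (∃ i, φ i = p.2.2)) : ℝ) ≤
      (s : ℝ) ^ 3 * (Fintype.card V : ℝ) ^ s := by
  obtain ⟨⟨a, b⟩, ⟨c, d⟩⟩ := p
  rw [mem_offDiag] at hp
  obtain ⟨he, hf, hne⟩ := hp
  simp only at he hf hne
  have hab : a ≠ b := by
    rintro rfl
    exact hO _ _ he he
  have hcd : c ≠ d := by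
    rintro rfl
    exact hO _ _ hf hf
  have hn3 : (0 : ℝ) ≤ (Fintype.card V : ℝ) ^ 3 := by positivity
  by_cases hc : c = a ∨ c = b
  · have hd : d ≠ a ∧ d ≠ b := by
      rcases hc with rfl | rfl
      · refine ⟨fun h => hcd h.symm, ?_⟩
        rintro rfl
        exact hne rfl
      · refine ⟨?_, fun h => hcd h.symm⟩
        rintro rfl
        exact hO _ _ he hf
    refine le_trans (mul_le_mul_of_nonneg_left ?_ hn3) (h4 V s a b d hab (Ne.symm hd.2) (Ne.symm hd.1))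
    have : (univ.filter fun φ : Fin s → V => (∃ i, φ i = a) ∧ (∃ i, φ i = b) ∧ (∃ i, φ i = c) ∧
        (∃ i, φ i = d)) ⊆
        (univ.filter fun φ : Fin s → V => (∃ i, φ i = a) ∧ (∃ i, φ i = b) ∧ ∃ i, φ i = d) := by
      intro φ hφ
      rw [mem_filter] at hφ ⊢
      exact ⟨hφ.1, hφ.2.1, hφ.2.2.1, hφ.2.2.2.2⟩
    exact_mod_cast card_le_card this
  · have hc' : c ≠ a ∧ c ≠ b := ⟨fun h => hc (Or.inl h), fun h => hc (Or.inr h)⟩
    refine le_trans (mul_le_mul_of_nonneg_left ?_ hn3) (h4 V s a b c hab (Ne.symm hc'.2) (Ne.symm hc'.1))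
    have : (univ.filter fun φ : Fin s → V => (∃ i, φ i = a) ∧ (∃ i, φ i = b) ∧ (∃ i, φ i = c) ∧
        (∃ i, φ i = d)) ⊆
        (univ.filter fun φ : Fin s → V => (∃ i, φ i = a) ∧ (∃ i, φ i = b) ∧ ∃ i, φ i = c) := by
      intro φ hφ
      rw [mem_filter] at hφ ⊢
      exact ⟨hφ.1, hφ.2.1, hφ.2.2.1, hφ.2.2.2.1⟩
    exact_mod_cast card_le_card this

/-- **(dual)** the dual inequality, by sampling. -/
theorem t_dual (h4 : S_e4) (h1 : S_e1) (h2 : S_e2) (h3 : S_e3) (hg : S_good) : S_dual := by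
  intro V _ _ _ s hs E hO hB y z hy hz hcyc δ hδ hδs
  classical
  have hnpos : (0 : ℝ) < (Fintype.card V : ℝ) := by exact_mod_cast Fintype.card_pos
  have hspos : (0 : ℝ) < (s : ℝ) := by exact_mod_cast (by omega : 0 < s)
  have q1 := h1 V s E y hO hy
  have q2 := h2 V s E hO
  have q3 := h3 V s E hO hB
  have hcount : ∀ p ∈ E.offDiag, _ := fun p hp => bad_count h4 s E hO p hp
  obtain ⟨n, hn⟩ : ∃ n : ℝ, n = (Fintype.card V : ℝ) := ⟨_, rfl⟩
  obtain ⟨θ, hθ⟩ : ∃ θ : ℝ, θ = 1 - δ * (s : ℝ) ^ 2 := ⟨_, rfl⟩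
  obtain ⟨N, hN⟩ : ∃ N : ℝ, N = n ^ s := ⟨_, rfl⟩
  obtain ⟨Z, hZ⟩ : ∃ Z : ℝ, Z = ∑ p ∈ E.offDiag, z p := ⟨_, rfl⟩
  rw [← hn] at q1 q2 q3 hnpos hcount ⊢
  rw [← hN] at q1 q2 q3 hcount
  rw [← hθ, ← hZ]
  have hNpos : 0 < N := by rw [hN]; exact pow_pos hnpos s
  have hθ0 : 0 < θ := by rw [hθ]; linarith
  have hθ1 : θ ≤ 1 := by
    have := mul_pos hδ (pow_pos hspos 2)
    rw [hθ]; linarith
  obtain ⟨H, hH⟩ : ∃ H : Finset ((V × V) × (V × V)), H = E.offDiag.filter (fun p => δ ≤ z p) := ⟨_, rfl⟩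
  obtain ⟨R, hR⟩ : ∃ R : (V × V) × (V × V) → Finset (Fin s → V), R = fun p =>
    univ.filter fun φ : Fin s → V => (∃ i, φ i = p.1.1) ∧ (∃ i, φ i = p.1.2) ∧
      (∃ i, φ i = p.2.1) ∧ (∃ i, φ i = p.2.2) := ⟨_, rfl⟩
  have hcR : ∀ p ∈ E.offDiag, n ^ 3 * (#(R p) : ℝ) ≤ (s : ℝ) ^ 3 * N := by
    intro p hp
    rw [hR]
    exact hcount p hp
  obtain ⟨B, hBB⟩ : ∃ B : Finset (Fin s → V), B = H.biUnion R := ⟨_, rfl⟩
  have hHd : (#H : ℝ) * δ ≤ Z := by
    calc (#H : ℝ) * δ = ∑ p ∈ H, δ := by rw [sum_const, nsmul_eq_mul]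
      _ ≤ ∑ p ∈ H, z p := sum_le_sum fun p hp => by
          rw [hH] at hp
          exact (mem_filter.1 hp).2
      _ ≤ ∑ p ∈ E.offDiag, z p := by
          rw [hH]
          exact sum_le_sum_of_subset_of_nonneg (filter_subset _ _) fun p _ _ => hz p
      _ = Z := hZ.symm
  have hBad : n ^ 3 * (#B : ℝ) ≤ Z / δ * (s : ℝ) ^ 3 * N := by
    have hc : (#B : ℝ) ≤ ∑ p ∈ H, (#(R p) : ℝ) := by
      rw [hBB]
      exact_mod_cast card_biUnion_le
    calc n ^ 3 * (#B : ℝ) ≤ n ^ 3 * ∑ p ∈ H, (#(R p) : ℝ) :=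
          mul_le_mul_of_nonneg_left hc (by positivity)
      _ = ∑ p ∈ H, n ^ 3 * (#(R p) : ℝ) := mul_sum _ _ _
      _ ≤ ∑ p ∈ H, (s : ℝ) ^ 3 * N := sum_le_sum fun p hp => by
          rw [hH] at hp
          exact hcR p (mem_filter.1 hp).1
      _ = (#H : ℝ) * ((s : ℝ) ^ 3 * N) := by rw [sum_const, nsmul_eq_mul]
      _ ≤ (Z / δ) * ((s : ℝ) ^ 3 * N) := by
          apply mul_le_mul_of_nonneg_right _ (by positivity)
          rw [le_div_iff₀ hδ]
          exact hHd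
      _ = Z / δ * (s : ℝ) ^ 3 * N := by ring
  have hpt : ∀ φ : Fin s → V, θ * ∑ x, (so E φ x : ℝ) ^ 2 / 2 ≤
      s * sy E y φ + θ * s * ∑ x, |(si E φ x : ℝ) - so E φ x| +
        (s : ℝ) ^ 3 * (if φ ∈ B then 1 else 0) := by
    intro φ
    by_cases hφ : φ ∈ B
    · rw [if_pos hφ]
      have hso : ∀ x, (so E φ x : ℝ) ≤ s := by
        intro x
        have : so E φ x ≤ s := by
          unfold so
          calc _ ≤ #(univ : Finset (Fin s)) := card_filter_le _ _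
            _ = s := by simp
        exact_mod_cast this
      have h1' : ∑ x, (so E φ x : ℝ) ^ 2 / 2 ≤ (s : ℝ) ^ 3 := by
        calc ∑ x, (so E φ x : ℝ) ^ 2 / 2 ≤ ∑ x : Fin s, (s : ℝ) ^ 2 := by
              apply sum_le_sum
              intro x _
              have := hso x
              have h0 : (0 : ℝ) ≤ so E φ x := Nat.cast_nonneg _
              nlinarith
          _ = (s : ℝ) ^ 3 := by
              rw [sum_const, card_univ, Fintype.card_fin, nsmul_eq_mul]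
              ring
      have hA0 : 0 ≤ ∑ x, (so E φ x : ℝ) ^ 2 / 2 := sum_nonneg fun x _ => by positivity
      have hsy : 0 ≤ sy E y φ := by
        unfold sy
        refine sum_nonneg fun i _ => sum_nonneg fun j _ => ?_
        split_ifs
        · exact hy _
        · exact le_rfl
      have hab : 0 ≤ ∑ x, |(si E φ x : ℝ) - so E φ x| := sum_nonneg fun x _ => abs_nonneg _
      have e1 : θ * ∑ x, (so E φ x : ℝ) ^ 2 / 2 ≤ (s : ℝ) ^ 3 := by
        calc θ * ∑ x, (so E φ x : ℝ) ^ 2 / 2 ≤ 1 * ∑ x, (so E φ x : ℝ) ^ 2 / 2 :=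
              mul_le_mul_of_nonneg_right hθ1 hA0
          _ ≤ (s : ℝ) ^ 3 := by rw [one_mul]; exact h1'
      have e2 : 0 ≤ s * sy E y φ := mul_nonneg hspos.le hsy
      have e3 : 0 ≤ θ * s * ∑ x, |(si E φ x : ℝ) - so E φ x| :=
        mul_nonneg (mul_nonneg hθ0.le hspos.le) hab
      linarith
    · rw [if_neg hφ, mul_zero, add_zero]
      apply hg V s E hO y hy θ hθ0 φ
      intro C hC
      have hlen : C.len + 2 ≤ s := by
        have hsub : (univ.image C.vert : Finset V) ⊆ univ.image φ := by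
          intro v hv
          obtain ⟨i, _, rfl⟩ := mem_image.1 hv
          obtain ⟨j, hj⟩ := hC i
          exact mem_image.2 ⟨j, mem_univ _, hj⟩
        have h1 := card_le_card hsub
        rw [card_image_of_injective _ C.inj, card_univ, Fintype.card_fin] at h1
        have h2 : #(univ.image φ) ≤ s := by
          calc _ ≤ #(univ : Finset (Fin s)) := card_image_le
            _ = s := by simp
        omega
      have harcs : arcs C ⊆ E := by
        intro e he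
        unfold arcs at he
        obtain ⟨i, _, rfl⟩ := mem_image.1 he
        exact C.adj i
      have hcard : #(arcs C) ≤ s := by
        calc #(arcs C) ≤ #(univ : Finset (Fin (C.len + 2))) := card_image_le
          _ = C.len + 2 := by simp
          _ ≤ s := hlen
      have hrange : ∀ e ∈ arcs C, (∃ i, φ i = e.1) ∧ (∃ i, φ i = e.2) := by
        intro e he
        unfold arcs at he
        obtain ⟨i, _, rfl⟩ := mem_image.1 he
        exact ⟨hC i, hC (i + 1)⟩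
      have hzs : ∑ p ∈ (arcs C).offDiag, z p ≤ δ * (s : ℝ) ^ 2 := by
        calc ∑ p ∈ (arcs C).offDiag, z p ≤ ∑ p ∈ (arcs C).offDiag, δ := by
              apply sum_le_sum
              intro p hp
              by_contra hlt
              have hlt' : δ < z p := lt_of_not_ge hlt
              apply hφ
              rw [mem_offDiag] at hp
              have hpH : p ∈ H := by
                rw [hH]
                exact mem_filter.2 ⟨mem_offDiag.2 ⟨harcs hp.1, harcs hp.2.1, hp.2.2⟩, hlt'.le⟩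
              rw [hBB]
              refine mem_biUnion.2 ⟨p, hpH, ?_⟩
              rw [hR]
              refine mem_filter.2 ⟨mem_univ _, ?_⟩
              exact ⟨(hrange _ hp.1).1, (hrange _ hp.1).2, (hrange _ hp.2.1).1, (hrange _ hp.2.1).2⟩
          _ = (#((arcs C).offDiag) : ℝ) * δ := by rw [sum_const, nsmul_eq_mul]
          _ ≤ (s : ℝ) ^ 2 * δ := by
              apply mul_le_mul_of_nonneg_right _ hδ.le
              have : #((arcs C).offDiag) ≤ s ^ 2 := by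
                rw [offDiag_card]
                calc _ ≤ #(arcs C) * #(arcs C) := Nat.sub_le _ _
                  _ ≤ s * s := Nat.mul_le_mul hcard hcard
                  _ = s ^ 2 := by ring
              exact_mod_cast this
          _ = δ * (s : ℝ) ^ 2 := by ring
      have := hcyc C hlen
      rw [hθ]
      linarith
  -- the sum over all samples
  have hsum : θ * (∑ φ : Fin s → V, ∑ x, (so E φ x : ℝ) ^ 2) / 2 ≤
      s * (∑ φ : Fin s → V, sy E y φ) +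
        θ * s * (∑ φ : Fin s → V, ∑ x, |(si E φ x : ℝ) - so E φ x|) + (s : ℝ) ^ 3 * (#B : ℝ) := by
    have h := sum_le_sum fun (φ : Fin s → V) (_ : φ ∈ univ) => hpt φ
    rw [← mul_sum, sum_add_distrib, sum_add_distrib, ← mul_sum, ← mul_sum, ← mul_sum] at h
    have hBc : ∑ φ : Fin s → V, (if φ ∈ B then (1 : ℝ) else 0) = (#B : ℝ) := by
      rw [sum_ite_mem, univ_inter, sum_const, nsmul_eq_mul, mul_one]
    rw [hBc] at h
    have h2' : ∑ φ : Fin s → V, ∑ x, (so E φ x : ℝ) ^ 2 / 2 =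
        (∑ φ : Fin s → V, ∑ x, (so E φ x : ℝ) ^ 2) / 2 := by
      rw [sum_div]
      exact sum_congr rfl fun φ _ => by rw [sum_div]
    rw [h2'] at h
    linarith
  obtain ⟨A, hA⟩ : ∃ A : ℝ, A = ∑ φ : Fin s → V, ∑ x, (so E φ x : ℝ) ^ 2 := ⟨_, rfl⟩
  obtain ⟨Sy, hSy⟩ : ∃ Sy : ℝ, Sy = ∑ φ : Fin s → V, sy E y φ := ⟨_, rfl⟩
  obtain ⟨M, hM⟩ : ∃ M : ℝ, M = ∑ φ : Fin s → V, ∑ x, |(si E φ x : ℝ) - so E φ x| := ⟨_, rfl⟩
  obtain ⟨D, hD⟩ : ∃ D : ℝ, D = ∑ v, (odg E v : ℝ) ^ 2 := ⟨_, rfl⟩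
  obtain ⟨Y, hY⟩ : ∃ Y : ℝ, Y = ∑ e ∈ E, y e := ⟨_, rfl⟩
  obtain ⟨b, hb⟩ : ∃ b : ℝ, b = (#B : ℝ) := ⟨_, rfl⟩
  obtain ⟨S, hS⟩ : ∃ S : ℝ, S = (s : ℝ) := ⟨_, rfl⟩
  obtain ⟨r, hr⟩ : ∃ r : ℝ, r = Real.sqrt S := ⟨_, rfl⟩
  rw [← hA, ← hSy, ← hM, ← hb] at hsum
  rw [← hD, ← hA] at q2
  rw [← hY, ← hSy] at q1
  rw [← hM] at q3
  rw [← hb] at hBad
  rw [← hD, ← hY]
  rw [← hS] at hsum q1 q2 q3 hBad hspos ⊢
  rw [← hr] at q3 ⊢
  have hrpos : 0 < r := by rw [hr]; exact Real.sqrt_pos.2 hspos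
  have hrr : r * r = S := by rw [hr]; exact Real.mul_self_sqrt hspos.le
  -- q1 : n^2 * Sy ≤ S^2 * N * Y, q2 : S*(S-1)*(S-2)*N*D ≤ n^3*A, q3 : M ≤ S*r*N
  have t1 : S * n * (n ^ 2 * Sy) ≤ S * n * (S ^ 2 * N * Y) :=
    mul_le_mul_of_nonneg_left q1 (by positivity)
  have t2 : θ / 2 * (S * (S - 1) * (S - 2) * N * D) ≤ θ / 2 * (n ^ 3 * A) :=
    mul_le_mul_of_nonneg_left q2 (by positivity)
  have t3 : θ * S * n ^ 3 * M ≤ θ * S * n ^ 3 * (S * r * N) :=
    mul_le_mul_of_nonneg_left q3 (by positivity)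
  have t4 : S ^ 3 * (n ^ 3 * b) ≤ S ^ 3 * (Z / δ * S ^ 3 * N) :=
    mul_le_mul_of_nonneg_left hBad (by positivity)
  have t5 : n ^ 3 * (θ * A / 2) ≤ n ^ 3 * (S * Sy + θ * S * M + S ^ 3 * b) :=
    mul_le_mul_of_nonneg_left hsum (by positivity)
  have key : N * (θ / 2 * (S * (S - 1) * (S - 2) * D)) ≤
      N * (S ^ 3 * n * Y + θ * S ^ 2 * r * n ^ 3 + S ^ 6 * (Z / δ)) := by
    nlinarith [t1, t2, t3, t4, t5]
  have key2 := le_of_mul_le_mul_left key hNpos
  have hSn : 0 < S ^ 3 * n := by positivity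
  have hfin : S ^ 3 * n * (θ * (((S - 1) * (S - 2) / (2 * S ^ 2)) * (D / n) - n ^ 2 / r)) ≤
      S ^ 3 * n * (Y + Z / δ * (S ^ 3 / n)) := by
    have l1 : S ^ 3 * n * (θ * (((S - 1) * (S - 2) / (2 * S ^ 2)) * (D / n) - n ^ 2 / r)) =
        θ / 2 * (S * (S - 1) * (S - 2) * D) - θ * S ^ 2 * r * n ^ 3 := by
      have hr2 : n ^ 2 / r = n ^ 2 * r / S := by
        rw [← hrr]
        field_simp
      rw [hr2]
      field_simp
    have l2 : S ^ 3 * n * (Y + Z / δ * (S ^ 3 / n)) = S ^ 3 * n * Y + S ^ 6 * (Z / δ) := by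
      field_simp
    rw [l1, l2]
    linarith
  exact le_of_mul_le_mul_left hfin hSn

end Pool.Agent.H59.TD
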