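import Pool.Agent.H278.TD.Def

set_option autoImplicit false

/-!
# The sampled digraph is nearly balanced (by helper719)
-/

open Finset

namespace Pool.Agent.H719.TD

open Pool.Agent.H278.TD

section

variable {V : Type} [DecidableEq V]

/-- the signed adjacency matrix -/
noncomputable def sa (E : Finset (V × V)) (u v : V) : ℝ :=
  (if (u, v) ∈ E then 1 else 0) - (if (v, u) ∈ E then 1 else 0)

theorem sa_self (E : Finset (V × V)) (v : V) : sa E v v = 0 := sub_self _

theorem sa_sq (E : Finset (V × V)) (u v : V) : sa E u v * sa E u v ≤ 1 := by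
  unfold sa
  split_ifs <;> norm_num

theorem card_in [Fintype V] (E : Finset (V × V)) (v : V) :
    #(univ.filter fun u => (u, v) ∈ E) = idg E v := by
  unfold idg
  have h1 : (E.filter fun e => e.2 = v) = (univ.filter fun u => (u, v) ∈ E).image
      (fun u => (u, v)) := by
    ext ⟨a, b⟩
    simp only [mem_filter, mem_image, mem_univ, true_and, Prod.mk.injEq]
    constructor
    · rintro ⟨h, rfl⟩
      exact ⟨a, h, rfl, rfl⟩
    · rintro ⟨u, h, rfl, rfl⟩
      exact ⟨h, rfl⟩
  rw [h1, card_image_of_injective]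
  intro a b hab
  exact congrArg Prod.fst hab

theorem card_out [Fintype V] (E : Finset (V × V)) (v : V) :
    #(univ.filter fun u => (v, u) ∈ E) = odg E v := by
  unfold odg
  have h1 : (E.filter fun e => e.1 = v) = (univ.filter fun u => (v, u) ∈ E).image
      (fun u => (v, u)) := by
    ext ⟨a, b⟩
    simp only [mem_filter, mem_image, mem_univ, true_and, Prod.mk.injEq]
    constructor
    · rintro ⟨h, rfl⟩
      exact ⟨b, h, rfl, rfl⟩
    · rintro ⟨u, h, rfl, rfl⟩
      exact ⟨h, rfl⟩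
  rw [h1, card_image_of_injective]
  intro a b hab
  exact congrArg Prod.snd hab

theorem sum_sa [Fintype V] {E : Finset (V × V)} (hB : Bal E) (v : V) : ∑ u, sa E u v = 0 := by
  unfold sa
  rw [sum_sub_distrib, sum_boole, sum_boole, card_in, card_out, hB v, sub_self]

theorem dev_eq {s : ℕ} (E : Finset (V × V)) (φ : Fin s → V) (x : Fin s) :
    (si E φ x : ℝ) - so E φ x = ∑ j, sa E (φ j) (φ x) := by
  unfold sa si so
  rw [sum_sub_distrib, sum_boole, sum_boole]

end

theorem pair_zero (h : S_av) {V : Type} [Fintype V] [DecidableEq V] {s : ℕ} {E : Finset (V × V)}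
    (hB : Bal E) (j k x : Fin s) (hjk : j ≠ k) (hjx : j ≠ x) (hkx : k ≠ x) :
    ∑ φ : Fin s → V, sa E (φ j) (φ x) * sa E (φ k) (φ x) = 0 := by
  have h1 := (h V s).2 j k x hjk hkx hjx (fun a b c => sa E a c * sa E b c)
  have h2 : ∑ a, ∑ b, ∑ c, sa E a c * sa E b c = 0 := by
    have h3 : ∑ a, ∑ b, ∑ c, sa E a c * sa E b c = ∑ c, (∑ a, sa E a c) * ∑ b, sa E b c := by
      have h4 : ∀ c, (∑ a, sa E a c) * ∑ b, sa E b c = ∑ a, ∑ b, sa E a c * sa E b c := fun c =>
        sum_mul_sum _ _ _ _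
      rw [sum_congr rfl fun c _ => h4 c, sum_comm (s := univ (α := V)) (t := univ (α := V))
        (f := fun c a => ∑ b, sa E a c * sa E b c)]
      exact sum_congr rfl fun a _ => sum_comm
    rw [h3]
    exact sum_eq_zero fun c _ => by rw [sum_sa hB c, zero_mul]
  rw [h2, mul_zero] at h1
  rcases eq_or_ne (Fintype.card V) 0 with h0 | h0
  · have : IsEmpty V := Fintype.card_eq_zero_iff.1 h0
    exact sum_eq_zero fun φ _ => (IsEmpty.false (φ x)).elim
  · rcases mul_eq_zero.1 h1 with h5 | h5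
    · exact absurd h5 (pow_ne_zero _ (Nat.cast_ne_zero.2 h0))
    · exact h5

theorem card_maps (V : Type) [Fintype V] [DecidableEq V] (s : ℕ) :
    ((#(univ : Finset (Fin s → V)) : ℕ) : ℝ) = (Fintype.card V : ℝ) ^ s := by
  rw [card_univ, Fintype.card_fun, Fintype.card_fin]
  push_cast
  rfl

theorem sq_sum (h : S_av) {V : Type} [Fintype V] [DecidableEq V] {s : ℕ} {E : Finset (V × V)}
    (hB : Bal E) (x : Fin s) :
    ∑ φ : Fin s → V, (∑ j, sa E (φ j) (φ x)) ^ 2 ≤ s * (Fintype.card V : ℝ) ^ s := by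
  have h1 : ∑ φ : Fin s → V, (∑ j, sa E (φ j) (φ x)) ^ 2 =
      ∑ j, ∑ k, ∑ φ : Fin s → V, sa E (φ j) (φ x) * sa E (φ k) (φ x) := by
    have h2 : ∀ φ : Fin s → V, (∑ j, sa E (φ j) (φ x)) ^ 2 =
        ∑ j, ∑ k, sa E (φ j) (φ x) * sa E (φ k) (φ x) := fun φ => by
      rw [sq, sum_mul_sum]
    rw [sum_congr rfl fun φ _ => h2 φ, sum_comm]
    exact sum_congr rfl fun j _ => sum_comm
  rw [h1]
  have h3 : ∀ j : Fin s, ∑ k, ∑ φ : Fin s → V, sa E (φ j) (φ x) * sa E (φ k) (φ x) ≤
      (Fintype.card V : ℝ) ^ s := by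
    intro j
    rw [sum_eq_single j]
    · calc ∑ φ : Fin s → V, sa E (φ j) (φ x) * sa E (φ j) (φ x) ≤ ∑ φ : Fin s → V, (1 : ℝ) :=
            sum_le_sum fun φ _ => sa_sq E _ _
        _ = (Fintype.card V : ℝ) ^ s := by
            rw [sum_const, nsmul_eq_mul, mul_one, card_maps]
    · intro k _ hkj
      by_cases hjx : j = x
      · subst hjx
        exact sum_eq_zero fun φ _ => by rw [sa_self, zero_mul]
      · by_cases hkx : k = x
        · subst hkx
          exact sum_eq_zero fun φ _ => by rw [sa_self, mul_zero]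
        · exact pair_zero h hB j k x hkj.symm hjx hkx
    · intro hn
      exact absurd (mem_univ _) hn
  calc _ ≤ ∑ j : Fin s, (Fintype.card V : ℝ) ^ s := sum_le_sum fun j _ => h3 j
    _ = s * (Fintype.card V : ℝ) ^ s := by
      rw [sum_const, nsmul_eq_mul, card_univ, Fintype.card_fin]

theorem e3 (h : S_av) : S_e3 := by
  intro V _ _ s E _ hB
  rw [sum_comm]
  have h1 : ∀ x : Fin s, ∑ φ : Fin s → V, |(si E φ x : ℝ) - so E φ x| ≤
      Real.sqrt s * (Fintype.card V : ℝ) ^ s := by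
    intro x
    have h2 : ∀ φ : Fin s → V, |(si E φ x : ℝ) - so E φ x| = |∑ j, sa E (φ j) (φ x)| := fun φ => by
      rw [dev_eq]
    rw [sum_congr rfl fun φ _ => h2 φ]
    have h3 := sq_sum_le_card_mul_sum_sq (s := (univ : Finset (Fin s → V)))
      (f := fun φ => |∑ j, sa E (φ j) (φ x)|)
    rw [card_maps] at h3
    simp only [sq_abs] at h3
    have h4 := sq_sum h hB x
    have h0 : (0 : ℝ) ≤ (Fintype.card V : ℝ) ^ s := by positivity
    have h5 : (∑ φ : Fin s → V, |∑ j, sa E (φ j) (φ x)|) ^ 2 ≤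
        (Real.sqrt s * (Fintype.card V : ℝ) ^ s) ^ 2 := by
      refine h3.trans ((mul_le_mul_of_nonneg_left h4 h0).trans (le_of_eq ?_))
      rw [mul_pow, Real.sq_sqrt (Nat.cast_nonneg s)]
      ring
    exact (sq_le_sq₀ (sum_nonneg fun φ _ => abs_nonneg _)
      (mul_nonneg (Real.sqrt_nonneg _) h0)).1 h5
  calc _ ≤ ∑ x : Fin s, Real.sqrt s * (Fintype.card V : ℝ) ^ s := sum_le_sum fun x _ => h1 x
    _ = s * Real.sqrt s * (Fintype.card V : ℝ) ^ s := by
      rw [sum_const, nsmul_eq_mul, card_univ, Fintype.card_fin, mul_assoc]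

end Pool.Agent.H719.TD
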