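import Pool.Agent.H278.TD.Def

set_option autoImplicit false
set_option linter.all false

/-! Two consequences of the averages (project TD). -/

open Finset
open Pool.Agent.H278.TD

namespace Pool.Agent.H25.TD

theorem e4 (h : S_av) : S_e4 := by
  intro V _ _ s a b c hab hbc hac
  have h1 : ∀ i j k : Fin s, (Fintype.card V : ℝ) ^ 3 *
      ∑ φ : Fin s → V, (if φ i = a ∧ φ j = b ∧ φ k = c then (1 : ℝ) else 0) ≤
        (Fintype.card V : ℝ) ^ s := by
    intro i j k
    by_cases hij : i = j
    · subst hij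
      have h2 : ∀ φ : Fin s → V, (if φ i = a ∧ φ i = b ∧ φ k = c then (1 : ℝ) else 0) = 0 := by
        intro φ
        refine if_neg ?_
        rintro ⟨h3, h4, _⟩
        exact hab (h3.symm.trans h4)
      simp only [h2, Finset.sum_const_zero, mul_zero]
      positivity
    by_cases hjk : j = k
    · subst hjk
      have h2 : ∀ φ : Fin s → V, (if φ i = a ∧ φ j = b ∧ φ j = c then (1 : ℝ) else 0) = 0 := by
        intro φ
        refine if_neg ?_
        rintro ⟨_, h3, h4⟩
        exact hbc (h3.symm.trans h4)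
      simp only [h2, Finset.sum_const_zero, mul_zero]
      positivity
    by_cases hik : i = k
    · subst hik
      have h2 : ∀ φ : Fin s → V, (if φ i = a ∧ φ j = b ∧ φ i = c then (1 : ℝ) else 0) = 0 := by
        intro φ
        refine if_neg ?_
        rintro ⟨h3, _, h4⟩
        exact hac (h3.symm.trans h4)
      simp only [h2, Finset.sum_const_zero, mul_zero]
      positivity
    have h2 := (h V s).2 i j k hij hjk hik (fun x y z => if x = a ∧ y = b ∧ z = c then (1 : ℝ) else 0)
    rw [h2]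
    have h3 : ∑ x : V, ∑ y : V, ∑ z : V, (if x = a ∧ y = b ∧ z = c then (1 : ℝ) else 0) = 1 := by
      rw [Finset.sum_eq_single a, Finset.sum_eq_single b, Finset.sum_eq_single c]
      · simp
      · intro z _ hz
        exact if_neg fun h4 => hz h4.2.2
      · intro h4
        exact absurd (Finset.mem_univ _) h4
      · intro y _ hy
        exact Finset.sum_eq_zero fun z _ => if_neg fun h4 => hy h4.2.1
      · intro h4
        exact absurd (Finset.mem_univ _) h4
      · intro x _ hx
        exact Finset.sum_eq_zero fun y _ => Finset.sum_eq_zero fun z _ => if_neg fun h4 => hx h4.1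
      · intro h4
        exact absurd (Finset.mem_univ _) h4
    rw [h3, mul_one]
  have h2 : (#(univ.filter fun φ : Fin s → V => (∃ i, φ i = a) ∧ (∃ i, φ i = b) ∧ ∃ i, φ i = c) : ℝ) ≤
      ∑ φ : Fin s → V, ∑ i : Fin s, ∑ j : Fin s, ∑ k : Fin s,
        (if φ i = a ∧ φ j = b ∧ φ k = c then (1 : ℝ) else 0) := by
    rw [Finset.card_eq_sum_ones, Finset.sum_filter, Nat.cast_sum]
    refine Finset.sum_le_sum fun φ _ => ?_
    have h0 : ∀ i j k : Fin s, (0 : ℝ) ≤ (if φ i = a ∧ φ j = b ∧ φ k = c then (1 : ℝ) else 0) := by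
      intro i j k
      split_ifs <;> norm_num
    split_ifs with h3
    · obtain ⟨⟨i, hi⟩, ⟨j, hj⟩, ⟨k, hk⟩⟩ := h3
      calc ((1 : ℕ) : ℝ) = (if φ i = a ∧ φ j = b ∧ φ k = c then (1 : ℝ) else 0) := by
            rw [if_pos ⟨hi, hj, hk⟩, Nat.cast_one]
        _ ≤ ∑ k : Fin s, (if φ i = a ∧ φ j = b ∧ φ k = c then (1 : ℝ) else 0) :=
            Finset.single_le_sum (f := fun k => (if φ i = a ∧ φ j = b ∧ φ k = c then (1 : ℝ) else 0))
              (fun k _ => h0 i j k) (Finset.mem_univ k)
        _ ≤ ∑ j : Fin s, ∑ k : Fin s, (if φ i = a ∧ φ j = b ∧ φ k = c then (1 : ℝ) else 0) :=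
            Finset.single_le_sum
              (f := fun j => ∑ k : Fin s, (if φ i = a ∧ φ j = b ∧ φ k = c then (1 : ℝ) else 0))
              (fun j _ => Finset.sum_nonneg fun k _ => h0 i j k) (Finset.mem_univ j)
        _ ≤ _ :=
            Finset.single_le_sum
              (f := fun i => ∑ j : Fin s, ∑ k : Fin s,
                (if φ i = a ∧ φ j = b ∧ φ k = c then (1 : ℝ) else 0))
              (fun i _ => Finset.sum_nonneg fun j _ => Finset.sum_nonneg fun k _ => h0 i j k)
              (Finset.mem_univ i)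
    · rw [Nat.cast_zero]
      exact Finset.sum_nonneg fun i _ => Finset.sum_nonneg fun j _ => Finset.sum_nonneg fun k _ =>
        h0 i j k
  have h3 : ∑ φ : Fin s → V, ∑ i : Fin s, ∑ j : Fin s, ∑ k : Fin s,
        (if φ i = a ∧ φ j = b ∧ φ k = c then (1 : ℝ) else 0) =
      ∑ i : Fin s, ∑ j : Fin s, ∑ k : Fin s, ∑ φ : Fin s → V,
        (if φ i = a ∧ φ j = b ∧ φ k = c then (1 : ℝ) else 0) := by
    rw [Finset.sum_comm]
    refine Finset.sum_congr rfl fun i _ => ?_
    rw [Finset.sum_comm]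
    refine Finset.sum_congr rfl fun j _ => ?_
    rw [Finset.sum_comm]
  calc (Fintype.card V : ℝ) ^ 3 *
        (#(univ.filter fun φ : Fin s → V => (∃ i, φ i = a) ∧ (∃ i, φ i = b) ∧ ∃ i, φ i = c) : ℝ)
      ≤ (Fintype.card V : ℝ) ^ 3 * ∑ i : Fin s, ∑ j : Fin s, ∑ k : Fin s, ∑ φ : Fin s → V,
        (if φ i = a ∧ φ j = b ∧ φ k = c then (1 : ℝ) else 0) := by
        rw [← h3]
        exact mul_le_mul_of_nonneg_left h2 (by positivity)
    _ = ∑ i : Fin s, ∑ j : Fin s, ∑ k : Fin s, (Fintype.card V : ℝ) ^ 3 * ∑ φ : Fin s → V,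
        (if φ i = a ∧ φ j = b ∧ φ k = c then (1 : ℝ) else 0) := by
        rw [Finset.mul_sum]
        refine Finset.sum_congr rfl fun i _ => ?_
        rw [Finset.mul_sum]
        refine Finset.sum_congr rfl fun j _ => ?_
        rw [Finset.mul_sum]
    _ ≤ ∑ i : Fin s, ∑ j : Fin s, ∑ k : Fin s, (Fintype.card V : ℝ) ^ s :=
        Finset.sum_le_sum fun i _ => Finset.sum_le_sum fun j _ => Finset.sum_le_sum fun k _ =>
          h1 i j k
    _ = (s : ℝ) ^ 3 * (Fintype.card V : ℝ) ^ s := by
        simp only [Finset.sum_const, Finset.card_univ, Fintype.card_fin, nsmul_eq_mul]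
        ring

theorem e1 (h : S_av) : S_e1 := by
  intro V _ _ s E y hE hy
  have hS : (0 : ℝ) ≤ ∑ e ∈ E, y e := Finset.sum_nonneg fun e _ => hy e
  have h1 : ∀ i j : Fin s, (Fintype.card V : ℝ) ^ 2 *
      ∑ φ : Fin s → V, (if (φ i, φ j) ∈ E then y (φ i, φ j) else 0) ≤
        (Fintype.card V : ℝ) ^ s * ∑ e ∈ E, y e := by
    intro i j
    by_cases hij : i = j
    · subst hij
      have h2 : ∀ φ : Fin s → V, (if (φ i, φ i) ∈ E then y (φ i, φ i) else 0) = 0 := by
        intro φ
        exact if_neg fun h3 => hE _ _ h3 h3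
      simp only [h2, Finset.sum_const_zero, mul_zero]
      positivity
    · have h2 := (h V s).1 i j hij (fun a b => if (a, b) ∈ E then y (a, b) else 0)
      rw [h2]
      refine le_of_eq ?_
      congr 1
      rw [← Fintype.sum_prod_type' (fun a b => if (a, b) ∈ E then y (a, b) else 0)]
      simp only [Prod.mk.eta]
      rw [← Finset.sum_filter]
      congr 1
      ext e
      simp
  have h3 : ∑ φ : Fin s → V, sy E y φ =
      ∑ i : Fin s, ∑ j : Fin s, ∑ φ : Fin s → V, (if (φ i, φ j) ∈ E then y (φ i, φ j) else 0) := by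
    unfold sy
    rw [Finset.sum_comm]
    refine Finset.sum_congr rfl fun i _ => ?_
    rw [Finset.sum_comm]
  calc (Fintype.card V : ℝ) ^ 2 * ∑ φ : Fin s → V, sy E y φ
      = ∑ i : Fin s, ∑ j : Fin s, (Fintype.card V : ℝ) ^ 2 *
          ∑ φ : Fin s → V, (if (φ i, φ j) ∈ E then y (φ i, φ j) else 0) := by
        rw [h3, Finset.mul_sum]
        refine Finset.sum_congr rfl fun i _ => ?_
        rw [Finset.mul_sum]
    _ ≤ ∑ i : Fin s, ∑ j : Fin s, (Fintype.card V : ℝ) ^ s * ∑ e ∈ E, y e :=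
        Finset.sum_le_sum fun i _ => Finset.sum_le_sum fun j _ => h1 i j
    _ = (s : ℝ) ^ 2 * (Fintype.card V : ℝ) ^ s * ∑ e ∈ E, y e := by
        simp only [Finset.sum_const, Finset.card_univ, Fintype.card_fin, nsmul_eq_mul]
        ring

end Pool.Agent.H25.TD
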