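import Pool.Agent.H278.TD.Def

/-!
# Packings of directed cycles and the diameter of the interchange graphs: final assembly
-/

set_option autoImplicit false

open Finset
open Pool.Agent.Results.MP_2634a8_co.Fractional (DiCycle)

namespace Pool.Agent.H163.TD

open Pool.Agent.H278.TD

theorem odg_le {V : Type} [Fintype V] [DecidableEq V] (E : Finset (V × V)) (v : V) :
    odg E v ≤ Fintype.card V := by
  unfold odg
  have h : #(E.filter fun e => e.1 = v) ≤ #(Finset.univ : Finset V) := by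
    apply Finset.card_le_card_of_injOn (fun e => e.2)
    · intro e _
      exact Finset.mem_coe.2 (Finset.mem_univ _)
    · intro e he e' he' h
      rw [Finset.mem_coe, Finset.mem_filter] at he he'
      exact Prod.ext (he.2.trans he'.2.symm) h
  exact h

theorem sum_odg {V : Type} [Fintype V] [DecidableEq V] (E : Finset (V × V)) :
    ∑ v, odg E v = #E := by
  unfold odg
  exact (Finset.card_eq_sum_card_fiberwise (f := fun e : V × V => e.1) (s := E)
    (t := Finset.univ) (fun _ _ => Finset.mem_coe.2 (Finset.mem_univ _))).symm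

theorem sq_le {V : Type} [Fintype V] [DecidableEq V] (E : Finset (V × V))
    (hV : 1 ≤ Fintype.card V) :
    (∑ v, (odg E v : ℝ) ^ 2) / (2 * Fintype.card V) ≤ (Fintype.card V : ℝ) ^ 2 / 2 := by
  have hN : (1 : ℝ) ≤ Fintype.card V := by exact_mod_cast hV
  rw [div_le_div_iff₀ (by linarith) (by norm_num)]
  have h1 : ∑ v, (odg E v : ℝ) ^ 2 ≤ ∑ _v : V, (Fintype.card V : ℝ) ^ 2 := by
    apply Finset.sum_le_sum
    intro v _
    have h2 : (odg E v : ℝ) ≤ Fintype.card V := by exact_mod_cast odg_le E v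
    exact pow_le_pow_left₀ (Nat.cast_nonneg _) h2 2
  rw [Finset.sum_const, Finset.card_univ, nsmul_eq_mul] at h1
  nlinarith

theorem pk (hf : S_frac) (hn : S_nib) : S_pk := by
  intro ε hε
  obtain ⟨s, hs⟩ := hf (ε / 2) (by positivity)
  obtain ⟨b, hb, hnib⟩ := hn s ε hε
  obtain ⟨n₀, hn₀⟩ := hs b hb
  refine ⟨max n₀ 1, ?_⟩
  intro V _ _ hV E hO hB
  obtain ⟨w, hw⟩ := hn₀ V ((le_max_left _ _).trans hV) E hO hB
  have hV1 : 1 ≤ Fintype.card V := (le_max_right _ _).trans hV
  have h1 := sq_le E hV1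
  obtain ⟨t, ht⟩ : ∃ t : ℝ, t = (∑ v, (odg E v : ℝ) ^ 2) / (2 * Fintype.card V) := ⟨_, rfl⟩
  obtain ⟨M, hM⟩ : ∃ M : ℝ, M = (Fintype.card V : ℝ) ^ 2 := ⟨_, rfl⟩
  have hM0 : 0 ≤ M := by rw [hM]; positivity
  rw [← ht, ← hM] at h1 hw ⊢
  rcases lt_or_ge (t - ε / 2 * M) 0 with h | h
  · refine ⟨0, fun i => i.elim0, fun i => i.elim0, ?_⟩
    have : 0 ≤ ε * M := by positivity
    rw [Nat.cast_zero]
    linarith
  · obtain ⟨c, C, hd, hc⟩ := hnib V E _ w hO hw h
    refine ⟨c, C, hd, le_trans ?_ hc⟩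
    have h2 : t - ε / 2 * M ≤ M / 2 := by
      have : 0 ≤ ε * M := by positivity
      linarith
    have h3 : ε * (t - ε / 2 * M) ≤ ε * (M / 2) := mul_le_mul_of_nonneg_left h2 hε.le
    have h4 : (1 - ε) * (t - ε / 2 * M) = (t - ε / 2 * M) - ε * (t - ε / 2 * M) := by ring
    rw [h4]
    linarith

theorem arcs_bal {V : Type} [DecidableEq V] {A : V → V → Prop} (C : DiCycle A) :
    Bal (arcs C) := by
  intro v
  have hinj : Function.Injective fun i => (C.vert i, C.vert (i + 1)) := by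
    intro i j h
    exact C.inj (congrArg Prod.fst h)
  have h1 : odg (arcs C) v = #(Finset.univ.filter fun i => C.vert i = v) := by
    unfold odg arcs
    rw [Finset.filter_image, Finset.card_image_of_injective _ hinj]
  have h2 : idg (arcs C) v = #(Finset.univ.filter fun i => C.vert (i + 1) = v) := by
    unfold idg arcs
    rw [Finset.filter_image, Finset.card_image_of_injective _ hinj]
  rw [h1, h2]
  symm
  apply Finset.card_equiv (Equiv.addRight 1)
  intro i
  rw [Finset.mem_filter, Finset.mem_filter]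
  simp

theorem fin (hp : S_pk) (hb : S_bal) (hr : S_red) : S_fin := by
  intro ε hε
  obtain ⟨n₀, hn₀⟩ := hp (ε / 2) (by positivity)
  refine ⟨max n₀ 1, fun n hn T T' hT hT' hsc => ?_⟩
  obtain ⟨hB, hO⟩ := hb (Fin n) T T' hT hT' hsc
  obtain ⟨c, C, hd, hc⟩ := hn₀ (Fin n) (by
    rw [Fintype.card_fin]
    exact (le_max_left _ _).trans hn) (dif T T') hO hB
  have hpack : Pack (dif T T') c := by
    refine ⟨fun i => arcs (C i), fun i => ⟨?_, ?_, arcs_bal (C i)⟩, hd⟩
    · exact ⟨((C i).vert 0, (C i).vert (0 + 1)),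
        Finset.mem_image.2 ⟨0, Finset.mem_univ _, rfl⟩⟩
    · intro e he
      obtain ⟨j, -, rfl⟩ := Finset.mem_image.1 he
      exact (C i).adj j
  obtain ⟨m, hm, hR⟩ := hr (Fin n) T T' hT hT' hB c hpack
  refine ⟨m, ?_, hR⟩
  have hn1 : (1 : ℝ) ≤ n := by
    have : 1 ≤ n := (le_max_right _ _).trans hn
    exact_mod_cast this
  rw [← sum_odg] at hm
  have hm' : (m : ℝ) + 2 * c ≤ ∑ v, (odg (dif T T') v : ℝ) := by exact_mod_cast hm
  rw [Fintype.card_fin] at hc
  have h1 : ∑ v, (odg (dif T T') v : ℝ) - (∑ v, (odg (dif T T') v : ℝ) ^ 2) / n ≤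
      (n : ℝ) ^ 2 / 4 := by
    rw [Finset.sum_div, ← Finset.sum_sub_distrib]
    have h2 : ∀ v ∈ (Finset.univ : Finset (Fin n)),
        (odg (dif T T') v : ℝ) - (odg (dif T T') v : ℝ) ^ 2 / n ≤ (n : ℝ) / 4 := by
      intro v _
      have hn0 : (0 : ℝ) < n := by linarith
      generalize (odg (dif T T') v : ℝ) = d
      rw [sub_le_iff_le_add, ← sub_le_iff_le_add', le_div_iff₀ hn0]
      nlinarith [sq_nonneg (2 * d - n)]
    refine (Finset.sum_le_sum h2).trans (le_of_eq ?_)
    rw [Finset.sum_const, Finset.card_univ, Fintype.card_fin, nsmul_eq_mul]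
    ring
  have h3 : 2 * ((∑ v, (odg (dif T T') v : ℝ) ^ 2) / (2 * n)) =
      (∑ v, (odg (dif T T') v : ℝ) ^ 2) / n := by
    field_simp
  linarith

end Pool.Agent.H163.TD
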