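import Pool.Agent.H278.TD.Def

set_option autoImplicit false
set_option linter.unusedSectionVars false
set_option linter.style.haveILetI false

namespace Pool.Agent.H728.TD

open Finset
open Pool.Agent.Results.MP_2634a8_co.Fractional (DiCycle)
open Pool.Agent.H278.TD

lemma exists_s (ε : ℝ) (hε : 0 < ε) :
    ∃ s : ℕ, 3 ≤ s ∧ 3 / (2 * (s : ℝ)) + 1 / Real.sqrt s ≤ ε / 2 := by
  obtain ⟨s, hs⟩ := exists_nat_ge (max 3 (25 / ε ^ 2))
  have h3 : (3 : ℝ) ≤ s := le_trans (le_max_left _ _) hs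
  have h25 : 25 / ε ^ 2 ≤ (s : ℝ) := le_trans (le_max_right _ _) hs
  refine ⟨s, by exact_mod_cast h3, ?_⟩
  have hs0 : (0 : ℝ) < s := by linarith
  have hr : 0 < Real.sqrt s := Real.sqrt_pos.2 hs0
  have hr1 : 1 ≤ Real.sqrt s := by
    rw [Real.one_le_sqrt]
    linarith
  have hsq : Real.sqrt s * Real.sqrt s = s := Real.mul_self_sqrt hs0.le
  have h5 : 5 / ε ≤ Real.sqrt s := by
    apply Real.le_sqrt_of_sq_le
    rw [div_pow]
    norm_num
    exact h25
  have a1 : 3 / (2 * (s : ℝ)) ≤ (3 / 2) * (1 / Real.sqrt s) := by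
    have : 3 / (2 * (s : ℝ)) = (3 / 2) * (1 / s) := by ring
    rw [this]
    apply mul_le_mul_of_nonneg_left _ (by norm_num)
    apply one_div_le_one_div_of_le hr
    nlinarith
  have a2 : 1 / Real.sqrt s ≤ ε / 5 := by
    rw [div_le_div_iff₀ hr (by norm_num)]
    rw [div_le_iff₀ hε] at h5
    linarith
  linarith

lemma arith {ε s n D Z ZE YE Y b r : ℝ} (hε0 : 0 < ε) (hε1 : ε ≤ 1) (hs : 3 ≤ s) (hr : 0 < r)
    (hsr : 3 / (2 * s) + 1 / r ≤ ε / 2) (hn : 0 < n) (hD0 : 0 ≤ D) (hD : D ≤ n ^ 3) (hb : 0 < b)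
    (hZE : ZE ≤ Z) (hZ0 : 0 ≤ Z) (hYE : YE ≤ Y) (hY : 0 ≤ Y)
    (hn0 : s ^ 3 / (b * (ε / (2 * s ^ 2)) * n) ≤ ε / 4)
    (hd : (1 - ε / (2 * s ^ 2) * s ^ 2) * (((s - 1) * (s - 2) / (2 * s ^ 2)) * (D / n) - n ^ 2 / r) ≤
      YE + ZE / (ε / (2 * s ^ 2)) * (s ^ 3 / n)) :
    D / (2 * n) - ε * n ^ 2 ≤ Y + b * Z := by
  have hs0 : 0 < s := by linarith
  have ht : D / (2 * n) ≤ n ^ 2 / 2 := by
    rw [div_le_iff₀ (by positivity)]
    calc D ≤ n ^ 3 := hD
      _ = n ^ 2 / 2 * (2 * n) := by ring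
  have ht0 : 0 ≤ D / (2 * n) := by positivity
  have hn2 : 0 < n ^ 2 := by positivity
  by_cases hbZ : n ^ 2 ≤ b * Z
  · have : 0 ≤ ε * n ^ 2 := by positivity
    linarith
  · push Not at hbZ
    have hδs : ε / (2 * s ^ 2) * s ^ 2 = ε / 2 := by
      field_simp
    rw [hδs] at hd
    obtain ⟨δ, hδdef⟩ : ∃ δ, δ = ε / (2 * s ^ 2) := ⟨_, rfl⟩
    have hδ : 0 < δ := by rw [hδdef]; positivity
    rw [← hδdef] at hd hn0
    obtain ⟨t, htdef⟩ : ∃ t, t = D / (2 * n) := ⟨_, rfl⟩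
    rw [← htdef] at ht ht0 ⊢
    have hDn : D / n = 2 * t := by
      rw [htdef]
      field_simp
    rw [hDn] at hd
    have h1 : ZE / δ * (s ^ 3 / n) ≤ n ^ 2 * (ε / 4) := by
      have e1 : ZE / δ * (s ^ 3 / n) = (b * ZE) * (s ^ 3 / (b * δ * n)) := by
        field_simp
      have hq : 0 ≤ s ^ 3 / (b * δ * n) := by positivity
      rw [e1]
      calc (b * ZE) * (s ^ 3 / (b * δ * n)) ≤ n ^ 2 * (s ^ 3 / (b * δ * n)) := by
            apply mul_le_mul_of_nonneg_right _ hq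
            have : b * ZE ≤ b * Z := mul_le_mul_of_nonneg_left hZE hb.le
            linarith
        _ ≤ n ^ 2 * (ε / 4) := mul_le_mul_of_nonneg_left hn0 hn2.le
    obtain ⟨q, hq⟩ : ∃ q, q = 3 / s := ⟨_, rfl⟩
    have hq0 : 0 ≤ q := by rw [hq]; positivity
    have hq2 : 3 / (2 * s) = q / 2 := by rw [hq]; ring
    rw [hq2] at hsr
    have h2 : (1 - q) * t ≤ (s - 1) * (s - 2) / (2 * s ^ 2) * (2 * t) := by
      have e2 : (s - 1) * (s - 2) / (2 * s ^ 2) * (2 * t) = (1 - q + 2 / s ^ 2) * t := by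
        rw [hq]
        field_simp
        ring
      rw [e2]
      apply mul_le_mul_of_nonneg_right _ ht0
      have : 0 ≤ 2 / s ^ 2 := by positivity
      linarith
    have h3 : (1 - ε / 2) * ((1 - q) * t - n ^ 2 / r) ≤
        (1 - ε / 2) * ((s - 1) * (s - 2) / (2 * s ^ 2) * (2 * t) - n ^ 2 / r) := by
      apply mul_le_mul_of_nonneg_left _ (by linarith)
      linarith
    have e3 : n ^ 2 / r = n ^ 2 * (1 / r) := by ring
    have hir : 0 ≤ 1 / r := by positivity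
    obtain ⟨i, hi⟩ : ∃ i, i = 1 / r := ⟨_, rfl⟩
    rw [← hi] at e3 hir hsr
    rw [e3] at h3 hd
    have h4 : t - ε / 2 * t - q * t - n ^ 2 * i ≤ (1 - ε / 2) * ((1 - q) * t - n ^ 2 * i) := by
      have p1 : 0 ≤ ε / 2 * (q * t) := by positivity
      have p2 : 0 ≤ ε / 2 * (n ^ 2 * i) := by positivity
      nlinarith
    have h5 : ε / 2 * t ≤ ε / 4 * n ^ 2 := by
      have := mul_le_mul_of_nonneg_left ht (show 0 ≤ ε / 2 by positivity)
      linarith
    have h6 : q * t ≤ q / 2 * n ^ 2 := by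
      have := mul_le_mul_of_nonneg_left ht hq0
      linarith
    have h7 : (q / 2 + i) * n ^ 2 ≤ ε / 2 * n ^ 2 := mul_le_mul_of_nonneg_right hsr hn2.le
    have h8 : 0 ≤ b * Z := mul_nonneg hb.le hZ0
    linarith

lemma sum_ext {α : Type} [Fintype α] (q : α → Prop) [DecidablePred q] [Fintype {x // q x}]
    (f : {x // q x} → ℝ) :
    ∑ x, (if h : q x then f ⟨x, h⟩ else 0) = ∑ i, f i := by
  classical
  rw [← Finset.sum_filter_add_sum_filter_not univ q]
  have h0 : ∑ x ∈ univ.filter (fun x => ¬ q x), (if h : q x then f ⟨x, h⟩ else 0) = 0 :=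
    Finset.sum_eq_zero fun x hx => dif_neg (Finset.mem_filter.1 hx).2
  rw [h0, add_zero]
  rw [Finset.sum_subtype (p := q) (univ.filter q) (fun x => by simp)]
  refine Finset.sum_congr rfl fun i _ => ?_
  rw [dif_pos i.2]


section

variable {V : Type} [Fintype V] [DecidableEq V]

lemma odg_le (E : Finset (V × V)) (v : V) : odg E v ≤ Fintype.card V := by
  unfold odg
  have h : (E.filter fun e => e.1 = v).card ≤ (univ : Finset V).card := by
    apply Finset.card_le_card_of_injOn (fun e => e.2) (fun e _ => Finset.mem_univ _)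
    intro e he f hf hef
    have h1 := (Finset.mem_filter.1 he).2
    have h2 := (Finset.mem_filter.1 hf).2
    exact Prod.ext (h1.trans h2.symm) hef
  simpa using h

lemma sumsq_le (E : Finset (V × V)) : ∑ v, (odg E v : ℝ) ^ 2 ≤ (Fintype.card V : ℝ) ^ 3 := by
  calc ∑ v, (odg E v : ℝ) ^ 2 ≤ ∑ _v : V, (Fintype.card V : ℝ) ^ 2 := by
        apply Finset.sum_le_sum
        intro v _
        have : (odg E v : ℝ) ≤ Fintype.card V := by exact_mod_cast odg_le E v
        exact pow_le_pow_left₀ (by positivity) this 2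
    _ = (Fintype.card V : ℝ) ^ 3 := by
        rw [Finset.sum_const, Finset.card_univ, nsmul_eq_mul]
        ring

/-- the index set of the linear program -/
abbrev Idx (V : Type) : Type := (V × V) ⊕ {p : (V × V) × (V × V) // p.1 ≠ p.2}

/-- the matrix of the linear program -/
def mat (S : Finset (V × V)) : Idx V → ℝ
  | Sum.inl e => if e ∈ S then 1 else 0
  | Sum.inr p => if p.1.1 ∈ S ∧ p.1.2 ∈ S then 1 else 0

/-- the capacities -/
def cap' (b : ℝ) : Idx V → ℝ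
  | Sum.inl _ => 1
  | Sum.inr _ => b

/-- the dual variable of the pairs of arcs -/
noncomputable def zz (y : Idx V → ℝ) (p : (V × V) × (V × V)) : ℝ :=
  if h : p.1 ≠ p.2 then y (Sum.inr ⟨p, h⟩) else 0

lemma zz_nonneg {y : Idx V → ℝ} (hy : ∀ j, 0 ≤ y j) (p : (V × V) × (V × V)) : 0 ≤ zz y p := by
  unfold zz
  split_ifs with h
  · exact hy _
  · exact le_rfl

lemma sum_mat (S : Finset (V × V)) (y : Idx V → ℝ) :
    ∑ j, mat S j * y j = ∑ e ∈ S, y (Sum.inl e) + ∑ p ∈ S.offDiag, zz y p := by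
  rw [Fintype.sum_sum_type]
  congr 1
  · have h : ∀ e : V × V, mat S (Sum.inl e) * y (Sum.inl e) =
        if e ∈ S then y (Sum.inl e) else 0 := by
      intro e
      show (if e ∈ S then (1 : ℝ) else 0) * y (Sum.inl e) = _
      split_ifs <;> simp
    rw [Finset.sum_congr rfl fun e _ => h e, Finset.sum_ite_mem, Finset.univ_inter]
  · rw [← sum_ext (fun p : (V × V) × (V × V) => p.1 ≠ p.2)
      (fun p => mat S (Sum.inr p) * y (Sum.inr p))]
    have h : ∀ p : (V × V) × (V × V),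
        (if h : p.1 ≠ p.2 then mat S (Sum.inr ⟨p, h⟩) * y (Sum.inr ⟨p, h⟩) else 0) =
          if p ∈ S.offDiag then zz y p else 0 := by
      intro p
      unfold zz
      by_cases hp : p.1 ≠ p.2
      · rw [dif_pos hp, dif_pos hp]
        show (if p.1 ∈ S ∧ p.2 ∈ S then (1 : ℝ) else 0) * _ = _
        by_cases h2 : p.1 ∈ S ∧ p.2 ∈ S
        · rw [if_pos h2, if_pos (Finset.mem_offDiag.2 ⟨h2.1, h2.2, hp⟩), one_mul]
        · rw [if_neg h2, if_neg (fun h => h2 ⟨(Finset.mem_offDiag.1 h).1,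
            (Finset.mem_offDiag.1 h).2.1⟩), zero_mul]
      · rw [dif_neg hp, dif_neg hp, ite_self]
    rw [Finset.sum_congr rfl fun p _ => h p, Finset.sum_ite_mem, Finset.univ_inter]

lemma mat_nonneg (S : Finset (V × V)) (j : Idx V) : 0 ≤ mat S j := by
  rcases j with e | p
  · show 0 ≤ (if e ∈ S then (1 : ℝ) else 0)
    split_ifs <;> norm_num
  · show 0 ≤ (if p.1.1 ∈ S ∧ p.1.2 ∈ S then (1 : ℝ) else 0)
    split_ifs <;> norm_num

lemma zz_sum_le {y : Idx V → ℝ} (hy : ∀ j, 0 ≤ y j) (T : Finset ((V × V) × (V × V))) :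
    ∑ p ∈ T, zz y p ≤ ∑ p : {p : (V × V) × (V × V) // p.1 ≠ p.2}, y (Sum.inr p) := by
  rw [← sum_ext (fun p : (V × V) × (V × V) => p.1 ≠ p.2) (fun p => y (Sum.inr p))]
  exact Finset.sum_le_univ_sum_of_nonneg (fun p => zz_nonneg hy p)

end

theorem frac (hl : S_lp) (hd : S_dual) : S_frac := by
  classical
  intro ε' hε'
  obtain ⟨ε, hεdef⟩ : ∃ ε, ε = min ε' 1 := ⟨_, rfl⟩
  have hε0 : 0 < ε := by rw [hεdef]; exact lt_min hε' one_pos
  have hε1 : ε ≤ 1 := by rw [hεdef]; exact min_le_right _ _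
  have hεε : ε ≤ ε' := by rw [hεdef]; exact min_le_left _ _
  obtain ⟨s, hs3, hsr⟩ := exists_s ε hε0
  have hs3' : (3 : ℝ) ≤ s := by exact_mod_cast hs3
  have hs0 : (0 : ℝ) < s := by linarith
  have hr : 0 < Real.sqrt s := Real.sqrt_pos.2 hs0
  refine ⟨s, fun b hb => ?_⟩
  have hδ : 0 < ε / (2 * (s : ℝ) ^ 2) := by positivity
  obtain ⟨n₀, hn₀⟩ := exists_nat_ge (max 1 ((s : ℝ) ^ 3 / (b * (ε / (2 * (s : ℝ) ^ 2))) / (ε / 4)))
  refine ⟨n₀, ?_⟩
  intro V _ _ hV E hO hB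
  have hn₁ : (1 : ℝ) ≤ n₀ := le_trans (le_max_left _ _) hn₀
  have hn₂ : (s : ℝ) ^ 3 / (b * (ε / (2 * (s : ℝ) ^ 2))) / (ε / 4) ≤ n₀ :=
    le_trans (le_max_right _ _) hn₀
  have hVn : (n₀ : ℝ) ≤ Fintype.card V := by exact_mod_cast hV
  have hn : (0 : ℝ) < Fintype.card V := by linarith
  haveI : Nonempty V := Fintype.card_pos_iff.1 (by exact_mod_cast hn)
  have hn0 : (s : ℝ) ^ 3 / (b * (ε / (2 * (s : ℝ) ^ 2)) * Fintype.card V) ≤ ε / 4 := by
    have h1 : (s : ℝ) ^ 3 / (b * (ε / (2 * (s : ℝ) ^ 2))) / (ε / 4) ≤ Fintype.card V :=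
      hn₂.trans hVn
    rw [div_le_iff₀ (by positivity)] at h1
    rw [← div_div, div_le_iff₀ hn]
    linarith
  obtain ⟨D, hD⟩ : ∃ D : ℝ, D = ∑ v, (odg E v : ℝ) ^ 2 := ⟨_, rfl⟩
  have hD0 : 0 ≤ D := by rw [hD]; positivity
  have hD3 : D ≤ (Fintype.card V : ℝ) ^ 3 := by rw [hD]; exact sumsq_le E
  let Q : Finset (V × V) → Prop := fun S => ∃ C : DiCycle (Adj E), arcs C = S ∧ C.len + 2 ≤ s
  have hδs : ε / (2 * (s : ℝ) ^ 2) * (s : ℝ) ^ 2 < 1 := by
    have : ε / (2 * (s : ℝ) ^ 2) * (s : ℝ) ^ 2 = ε / 2 := by field_simp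
    rw [this]
    linarith
  obtain ⟨w, hw0, hwc, hwt⟩ := hl {S // Q S} (Idx V) (fun S => mat S.1) (cap' b)
    (D / (2 * Fintype.card V) - ε * (Fintype.card V : ℝ) ^ 2) (fun S j => mat_nonneg S.1 j)
    (fun j => by
      rcases j with e | p
      · exact one_pos
      · exact hb)
    (fun y hy hyc => by
      have key := hd V s hs3 E hO hB (fun e => y (Sum.inl e)) (zz y) (fun e => hy _)
        (fun p => zz_nonneg hy p)
        (fun C hC => by
          have := hyc ⟨arcs C, C, rfl, hC⟩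
          rwa [sum_mat] at this)
        (ε / (2 * (s : ℝ) ^ 2)) hδ hδs
      rw [← hD] at key
      have hsum : ∑ j, cap' b j * y j = ∑ e : V × V, y (Sum.inl e) +
          b * ∑ p : {p : (V × V) × (V × V) // p.1 ≠ p.2}, y (Sum.inr p) := by
        rw [Fintype.sum_sum_type, Finset.mul_sum]
        congr 1
        exact Finset.sum_congr rfl fun e _ => one_mul _
      rw [hsum]
      exact arith hε0 hε1 hs3' hr hsr hn hD0 hD3 hb (zz_sum_le hy E.offDiag)
        (Finset.sum_nonneg fun p _ => hy _)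
        (Finset.sum_le_univ_sum_of_nonneg fun e => hy _) (Finset.sum_nonneg fun e _ => hy _)
        hn0 key)
  refine ⟨fun S => if h : Q S then w ⟨S, h⟩ else 0, ?_, ?_, ?_, ?_, ?_⟩
  · intro S
    show 0 ≤ (if h : Q S then w ⟨S, h⟩ else 0)
    split_ifs with h
    · exact hw0 _
    · exact le_rfl
  · intro S hS
    by_contra hne
    exact hS (dif_neg hne)
  · intro e
    have h := hwc (Sum.inl e)
    rw [← sum_ext Q (fun i => w i * mat i.1 (Sum.inl e))] at h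
    refine le_trans (le_of_eq ?_) h
    rw [Finset.sum_filter]
    refine Finset.sum_congr rfl fun S _ => ?_
    show _ = if h : Q S then w ⟨S, h⟩ * (if e ∈ S then (1 : ℝ) else 0) else 0
    by_cases h1 : e ∈ S <;> by_cases h2 : Q S <;> simp [h1, h2]
  · intro e f hef
    have h := hwc (Sum.inr ⟨(e, f), hef⟩)
    rw [← sum_ext Q (fun i => w i * mat i.1 (Sum.inr ⟨(e, f), hef⟩))] at h
    refine le_trans (le_of_eq ?_) h
    rw [Finset.sum_filter]
    refine Finset.sum_congr rfl fun S _ => ?_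
    show _ = if h : Q S then w ⟨S, h⟩ * (if e ∈ S ∧ f ∈ S then (1 : ℝ) else 0) else 0
    by_cases h1 : e ∈ S ∧ f ∈ S <;> by_cases h2 : Q S <;> simp [h1, h2]
  · rw [sum_ext Q w, ← hD]
    refine le_trans ?_ hwt
    have : ε * (Fintype.card V : ℝ) ^ 2 ≤ ε' * (Fintype.card V : ℝ) ^ 2 :=
      mul_le_mul_of_nonneg_right hεε (by positivity)
    linarith

end Pool.Agent.H728.TD
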