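import Pool.Agent.H278.TD.Def

/-!
# Project TD (helper278), job good (helper396): the inequality for one sample
-/

set_option autoImplicit false

namespace Pool.Agent.H396.TD

open Finset
open Pool.Agent.Results.MP_2634a8_co.Fractional (DiCycle closed_ge cap)
open Pool.Agent.H278.TD

theorem good (h : S_loc) : S_good := by
  intro V _ _ s E hOri y hy θ hθ φ hC
  classical
  -- the digraph on the range of `φ`
  have hcyc : ∀ C : DiCycle (fun u v : V => (u, v) ∈ E ∧ u ∈ Set.range φ ∧ v ∈ Set.range φ),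
      1 ≤ ∑ i, (fun u v : V => y (u, v) / θ) (C.vert i) (C.vert (i + 1)) := by
    intro C
    let C₀ : DiCycle (Adj E) :=
      { len := C.len
        vert := C.vert
        inj := C.inj
        adj := fun i => (C.adj i).1 }
    have h1 : θ ≤ ∑ e ∈ arcs C₀, y e := hC C₀ fun i => (C.adj i).2.1
    have h2 : ∑ e ∈ arcs C₀, y e = ∑ i, y (C.vert i, C.vert (i + 1)) := by
      unfold arcs
      rw [sum_image]
      intro i _ j _ hij
      exact C.inj (congrArg Prod.fst hij)
    rw [h2] at h1
    show 1 ≤ ∑ i, y (C.vert i, C.vert (i + 1)) / θ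
    rw [← sum_div, le_div_iff₀ hθ, one_mul]
    exact h1
  have hW : ∀ C : DiCycle (fun i j : Fin s => (φ i, φ j) ∈ E),
      1 ≤ ∑ i, (fun i j : Fin s => y (φ i, φ j) / θ) (C.vert i) (C.vert (i + 1)) := by
    intro C
    have e1 : ∀ i : Fin (C.len + 2), Fin.ofNat (C.len + 2) i.val = i := fun i =>
      Fin.ext (Nat.mod_eq_of_lt i.2)
    have e2 : ∀ i : Fin (C.len + 2), Fin.ofNat (C.len + 2) (i.val + 1) = i + 1 := fun i => by
      refine Fin.ext ?_
      rw [Fin.val_add, Fin.val_one]
      rfl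
    have h1 := closed_ge (fun u v : V => (u, v) ∈ E ∧ u ∈ Set.range φ ∧ v ∈ Set.range φ)
      (fun v hv => hOri v v hv.1 hv.1) (fun u v : V => y (u, v) / θ)
      (fun u v => div_nonneg (hy _) hθ.le) hcyc (C.len + 2)
      (fun t => φ (C.vert (Fin.ofNat (C.len + 2) t))) (by omega) (by
        have e3 : Fin.ofNat (C.len + 2) (C.len + 2) = Fin.ofNat (C.len + 2) 0 := by
          refine Fin.ext ?_
          show (C.len + 2) % (C.len + 2) = 0 % (C.len + 2)
          rw [Nat.mod_self, Nat.zero_mod]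
        show φ (C.vert (Fin.ofNat (C.len + 2) (C.len + 2))) =
          φ (C.vert (Fin.ofNat (C.len + 2) 0))
        rw [e3])
    refine h1.trans ?_
    rw [Finset.sum_range]
    refine sum_le_sum fun i _ => ?_
    show cap _ _ (φ (C.vert (Fin.ofNat (C.len + 2) i.val)))
      (φ (C.vert (Fin.ofNat (C.len + 2) (i.val + 1)))) ≤ y (φ (C.vert i), φ (C.vert (i + 1))) / θ
    rw [e1, e2]
    unfold cap
    rw [if_pos ⟨C.adj i, ⟨_, rfl⟩, ⟨_, rfl⟩⟩]
    exact min_le_left _ _
  have h2 := h (Fin s) (fun i j => (φ i, φ j) ∈ E) (fun v hv => hOri _ _ hv hv)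
    (fun i j => y (φ i, φ j) / θ) (fun i j => div_nonneg (hy _) hθ.le) hW
  have hso : ∀ x : Fin s, (#(@Finset.filter _ (fun u => (φ x, φ u) ∈ E)
      (fun u => Classical.propDecidable _) univ)) = so E φ x := by
    intro x
    unfold so
    refine congrArg Finset.card (Finset.ext fun u => ?_)
    simp only [mem_filter, mem_univ, true_and]
  have hsi : ∀ x : Fin s, (#(@Finset.filter _ (fun u => (φ u, φ x) ∈ E)
      (fun u => Classical.propDecidable _) univ)) = si E φ x := by
    intro x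
    unfold si
    refine congrArg Finset.card (Finset.ext fun u => ?_)
    simp only [mem_filter, mem_univ, true_and]
  simp only [hso, hsi, Fintype.card_fin] at h2
  have hsy : θ * (∑ x : Fin s, ∑ z ∈ @Finset.filter _ (fun z => (φ x, φ z) ∈ E)
      (fun z => Classical.propDecidable _) univ, y (φ x, φ z) / θ) = sy E y φ := by
    unfold sy
    rw [mul_sum]
    refine sum_congr rfl fun x _ => ?_
    rw [mul_sum, sum_filter]
    refine sum_congr rfl fun z _ => ?_
    by_cases hz : (φ x, φ z) ∈ E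
    · rw [if_pos hz, if_pos hz]
      field_simp
    · rw [if_neg hz, if_neg hz]
  have h3 := mul_le_mul_of_nonneg_left h2 hθ.le
  rw [mul_add] at h3
  have h4 : θ * ((s : ℝ) * (∑ x : Fin s, ∑ z ∈ @Finset.filter _ (fun z => (φ x, φ z) ∈ E)
      (fun z => Classical.propDecidable _) univ, y (φ x, φ z) / θ)) = s * sy E y φ := by
    rw [← hsy]
    ring
  have h5 : θ * ((s : ℝ) * ∑ x, |(si E φ x : ℝ) - so E φ x|) =
      θ * s * ∑ x, |(si E φ x : ℝ) - so E φ x| := by ring
  have h6 : θ * ∑ x, (so E φ x : ℝ) ^ 2 / 2 ≤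
      θ * ∑ x, (so E φ x : ℝ) * ((so E φ x : ℝ) + 1) / 2 := by
    refine mul_le_mul_of_nonneg_left (sum_le_sum fun x _ => ?_) hθ.le
    have h7 : (0 : ℝ) ≤ so E φ x := Nat.cast_nonneg _
    nlinarith
  refine h6.trans (h3.trans ?_)
  rw [h5]
  exact add_le_add_left (le_of_eq h4) _

end Pool.Agent.H396.TD
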