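import Pool.Agent.H278.TD.Def

set_option autoImplicit false

open Finset
open Pool.Agent.Results.MP_2634a8_co.Fractional

namespace Pool.Agent.H190.TD

theorem cap_le_one {V : Type} (A : V → V → Prop) (w : V → V → ℝ) (x y : V) : cap A w x y ≤ 1 := by
  unfold cap
  split_ifs
  · exact min_le_right _ _
  · exact le_rfl

theorem loc : Pool.Agent.H278.TD.S_loc := by
  intro W _ A hloop w hw hcyc
  classical
  have hcn := cap_nonneg A w hw
  have htri := dist_tri (cap A w) hcn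
  have hanti : ∀ x y, 1 ≤ dist (cap A w) x y + dist (cap A w) y x := by
    refine dist_anti _ ?_
    rintro x c ⟨m, p, hm, hp0, hpm, rfl⟩
    exact closed_ge A hloop w hw hcyc m p hm (hpm.trans hp0.symm)
  have hD0 : ∀ x y, 0 ≤ dist (cap A w) x y := fun x y =>
    le_csInf ⟨_, costs_mem _ x y⟩ (costs_nonneg _ hcn x y)
  have hD1 : ∀ x y, dist (cap A w) x y ≤ 1 := fun x y =>
    (dist_le _ hcn x y).trans (cap_le_one A w x y)
  have hDw : ∀ x y, A x y → dist (cap A w) x y ≤ w x y := by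
    intro x y hxy
    refine (dist_le _ hcn x y).trans ?_
    unfold cap
    rw [if_pos hxy]
    exact min_le_left _ _
  obtain ⟨D, hD⟩ : ∃ D, D = Pool.Agent.Results.MP_2634a8_co.Fractional.dist (cap A w) := ⟨_, rfl⟩
  rw [← hD] at hDw hD1 hD0 hanti htri
  have h1 := sum_le_sum fun (x : W) (_ : x ∈ (univ : Finset W)) =>
    local_ineq D htri hanti x {u | A x u} (by simpa using hloop x)
  rw [sum_add_distrib, sum_add_distrib, ← mul_sum] at h1
  have h2 : ∑ x, ∑ y with A x y, ∑ z ∈ univ.erase y, D y z =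
      ∑ x, ((#{u | A u x} : ℕ) : ℝ) * ∑ z ∈ univ.erase x, D x z := by
    have : ∑ x, ∑ y with A x y, ∑ z ∈ univ.erase y, D y z =
        ∑ y, ∑ x with A x y, ∑ z ∈ univ.erase y, D y z := by
      simp only [sum_filter]
      exact sum_comm
    rw [this]
    refine sum_congr rfl fun y _ => ?_
    rw [sum_const, nsmul_eq_mul]
  have hR0 : ∀ x, 0 ≤ ∑ z ∈ univ.erase x, D x z := fun x => sum_nonneg fun z _ => hD0 x z
  have hR1 : ∀ x, ∑ z ∈ univ.erase x, D x z ≤ Fintype.card W := by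
    intro x
    calc ∑ z ∈ univ.erase x, D x z ≤ ∑ z ∈ univ.erase x, (1 : ℝ) := sum_le_sum fun z _ => hD1 x z
      _ = (#(univ.erase x) : ℝ) := by simp
      _ ≤ Fintype.card W := by exact_mod_cast card_le_univ _
  have h3 : ∑ x, ((#{u | A u x} : ℕ) : ℝ) * ∑ z ∈ univ.erase x, D x z -
      ∑ x, ((#{u | A x u} : ℕ) : ℝ) * ∑ z ∈ univ.erase x, D x z ≤
      (Fintype.card W : ℝ) * ∑ x, |((#{u | A u x} : ℕ) : ℝ) - (#{u | A x u} : ℕ)| := by
    rw [← sum_sub_distrib, mul_sum]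
    refine sum_le_sum fun x _ => ?_
    rw [← sub_mul, mul_comm (Fintype.card W : ℝ)]
    refine (mul_le_mul_of_nonneg_right (le_abs_self _) (hR0 x)).trans ?_
    exact mul_le_mul_of_nonneg_left (hR1 x) (abs_nonneg _)
  have h4 : (Fintype.card W : ℝ) * ∑ x, ∑ y with A x y, D x y ≤
      (Fintype.card W : ℝ) * ∑ x, ∑ y with A x y, w x y := by
    refine mul_le_mul_of_nonneg_left ?_ (Nat.cast_nonneg _)
    refine sum_le_sum fun x _ => sum_le_sum fun y hy => ?_
    rw [mem_filter] at hy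
    exact hDw x y hy.2
  have h5 : ∑ x, ((#{u | A x u} : ℕ) : ℝ) * ((#{u | A x u} : ℕ) + 1) / 2 ≤
      (Fintype.card W : ℝ) * (∑ x, ∑ y with A x y, w x y) +
      (Fintype.card W : ℝ) * ∑ x, |((#{u | A u x} : ℕ) : ℝ) - (#{u | A x u} : ℕ)| := by
    linarith
  convert h5 using 1

end Pool.Agent.H190.TD
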