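import Pool.Agent.H278.TD.Def

set_option autoImplicit false

/-! Project TD (helper278), task TD-red (helper457) -/

open Finset

namespace Pool.Agent.H457.TD

open Pool.Agent.H278.TD

section lists

variable {V : Type}

/-- the list of the pairs of consecutive elements of `x :: L` -/
def zp (x : V) (L : List V) : List (V × V) := (x :: L).zip L

theorem zp_snd (x : V) (L : List V) : (zp x L).map Prod.snd = L := by
  unfold zp
  exact List.map_snd_zip (by simp)

theorem zp_fst (L : List V) (c : V) : ∀ x : V, (zp x (L ++ [c])).map Prod.fst = x :: L := by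
  induction L with
  | nil => intro x; rfl
  | cons y L ih =>
    intro x
    have h := ih y
    unfold zp at h ⊢
    simp only [List.cons_append, List.zip_cons_cons, List.map_cons] at h ⊢
    rw [h]

theorem zp_chain (R : V → V → Prop) (L : List V) : ∀ x : V, List.IsChain R (x :: L) →
    ∀ e ∈ zp x L, R e.1 e.2 := by
  induction L with
  | nil =>
    intro x _ e he
    unfold zp at he
    simp at he
  | cons y L ih =>
    intro x hx e he
    rw [List.isChain_cons_cons] at hx
    have h1 : zp x (y :: L) = (x, y) :: zp y L := rfl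
    rw [h1, List.mem_cons] at he
    rcases he with rfl | he
    · exact hx.1
    · exact ih y hx.2 e he

theorem mem_edg (u v : V) (L : List V) : ∀ x : V,
    (s(u, v) ∈ edg (x :: L) ↔ (u, v) ∈ zp x L ∨ (v, u) ∈ zp x L) := by
  induction L with
  | nil =>
    intro x
    simp [edg, zp]
  | cons y L ih =>
    intro x
    have h1 : zp x (y :: L) = (x, y) :: zp y L := rfl
    have h2 : edg (x :: y :: L) = insert s(x, y) (edg (y :: L)) := rfl
    rw [h1, h2, Set.mem_insert_iff, ih y, List.mem_cons, List.mem_cons, Sym2.eq_iff, Prod.mk.injEq,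
      Prod.mk.injEq]
    tauto

end lists

theorem flp_tour {V : Type} (S : Set (Sym2 V)) {T : V → V → Prop} (hT : IsTour T) :
    IsTour (flp S T) := by
  intro u v
  have h1 := hT u v
  have h2 := hT v u
  unfold flp
  rw [Sym2.eq_swap (a := v) (b := u)]
  by_cases h : s(u, v) ∈ S
  · simp only [h, true_and, not_true_eq_false, false_and, or_false]
    refine ⟨h2.1, fun hne => ?_⟩
    rcases h1.2 hne with h3 | h3
    · exact Or.inr h3
    · exact Or.inl h3
  · simp only [h, false_and, not_false_eq_true, true_and, false_or]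
    exact ⟨h1.1, h1.2⟩

theorem reach_trans {V : Type} (m' : ℕ) (T₂ : V → V → Prop) (m : ℕ) : ∀ T T₁ : V → V → Prop,
    Reach m T T₁ → Reach m' T₁ T₂ → Reach (m + m') T T₂ := by
  induction m with
  | zero =>
    intro T T₁ h1 h2
    have : T = T₁ := h1
    rw [this, Nat.zero_add]
    exact h2
  | succ m ih =>
    intro T T₁ h1 h2
    obtain ⟨T₀, h3, h4⟩ := h1
    rw [Nat.succ_add]
    exact ⟨T₀, h3, ih T₀ T₁ h4 h2⟩

section main

variable {V : Type} [DecidableEq V]

theorem card_filter_count (Z : List (V × V)) (hZ : Z.Nodup) (f : V × V → V) (v : V) :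
    #(Z.toFinset.filter fun e => f e = v) = (Z.map f).count v := by
  have h1 : (Z.toFinset.filter fun e => f e = v) = (Z.filter fun e => decide (f e = v)).toFinset := by
    ext e
    simp [List.mem_filter]
  rw [h1, List.toFinset_card_of_nodup (hZ.filter _), List.count_eq_countP, List.countP_map,
    List.countP_eq_length_filter]
  congr 1

theorem bal_zp (a b : V) (l : List V) (h : (a :: b :: l).Nodup) :
    Bal (zp a (b :: (l ++ [a]))).toFinset ∧ #(zp a (b :: (l ++ [a]))).toFinset = l.length + 2 := by
  have h1 : (zp a (b :: (l ++ [a]))).map Prod.fst = a :: b :: l := zp_fst (b :: l) a a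
  have h2 : (zp a (b :: (l ++ [a]))).map Prod.snd = b :: (l ++ [a]) := zp_snd a _
  have h3 : (zp a (b :: (l ++ [a]))).Nodup := by
    have : ((zp a (b :: (l ++ [a]))).map Prod.fst).Nodup := by rw [h1]; exact h
    exact this.of_map
  constructor
  · intro v
    unfold odg idg
    rw [card_filter_count _ h3, card_filter_count _ h3, h1, h2]
    exact (List.perm_append_singleton a (b :: l)).symm.count_eq v
  · rw [List.toFinset_card_of_nodup h3]
    have : ((zp a (b :: (l ++ [a]))).map Prod.fst).length = l.length + 2 := by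
      rw [h1]
      simp
    rwa [List.length_map] at this

theorem odg_sdiff {D K : Finset (V × V)} (h : K ⊆ D) (v : V) :
    odg (D \ K) v + odg K v = odg D v := by
  unfold odg
  rw [card_filter, card_filter, card_filter]
  exact sum_sdiff h

theorem idg_sdiff {D K : Finset (V × V)} (h : K ⊆ D) (v : V) :
    idg (D \ K) v + idg K v = idg D v := by
  unfold idg
  rw [card_filter, card_filter, card_filter]
  exact sum_sdiff h

theorem pack_one {E : Finset (V × V)} (h : E.Nonempty) (hb : Bal E) : Pack E 1 :=
  ⟨fun _ => E, fun _ => ⟨h, Subset.rfl, hb⟩, fun i j hij => absurd (Subsingleton.elim i j) hij⟩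

variable [Fintype V]

omit [DecidableEq V] in
theorem mem_dif {T T' : V → V → Prop} {e : V × V} : e ∈ dif T T' ↔ T e.1 e.2 ∧ T' e.2 e.1 := by
  simp only [dif, mem_filter, mem_univ, true_and]

theorem ori_dif {T T' : V → V → Prop} (hT : IsTour T) : Ori (dif T T') := by
  intro u v h1 h2
  rw [mem_dif] at h1 h2
  exact (hT u v).1 h1.1 h2.1

theorem eq_of_dif_empty {T T' : V → V → Prop} (hT : IsTour T) (hT' : IsTour T')
    (h : dif T T' = ∅) : T = T' := by
  have key : ∀ u v, T u v → ¬ T' v u := by
    intro u v h1 h2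
    have : (u, v) ∈ dif T T' := mem_dif.2 ⟨h1, h2⟩
    rw [h] at this
    exact absurd this (notMem_empty _)
  funext u v
  apply propext
  constructor
  · intro h1
    have hne : u ≠ v := by
      rintro rfl
      exact (hT u u).1 h1 h1
    rcases (hT' u v).2 hne with h2 | h2
    · exact h2
    · exact absurd h2 (key u v h1)
  · intro h1
    have hne : u ≠ v := by
      rintro rfl
      exact (hT' u u).1 h1 h1
    rcases (hT u v).2 hne with h2 | h2
    · exact h2
    · exact absurd h1 (key v u h2)

theorem dif_flp {T T' : V → V → Prop} (hT : IsTour T) (hT' : IsTour T') (S : Set (Sym2 V))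
    (K : Finset (V × V)) (hK : K ⊆ dif T T')
    (hS : ∀ u v, s(u, v) ∈ S ↔ (u, v) ∈ K ∨ (v, u) ∈ K) :
    dif (flp S T) T' = dif T T' \ K := by
  ext ⟨u, v⟩
  rw [mem_dif, mem_sdiff, mem_dif]
  unfold flp
  simp only
  by_cases h1 : (u, v) ∈ K
  · have h2 := mem_dif.1 (hK h1)
    simp only at h2
    have h3 : s(u, v) ∈ S := (hS u v).2 (Or.inl h1)
    have h4 := (hT u v).1 h2.1
    simp [h1, h3, h4]
  · by_cases h5 : (v, u) ∈ K
    · have h2 := mem_dif.1 (hK h5)
      simp only at h2
      have h3 : s(u, v) ∈ S := (hS u v).2 (Or.inr h5)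
      have h4 := (hT v u).1 h2.1
      have h6 := (hT' u v).1 h2.2
      simp [h3, h4, h6]
    · have h3 : s(u, v) ∉ S := fun h => by
        rcases (hS u v).1 h with h | h
        · exact h1 h
        · exact h5 h
      simp [h1, h3]

end main

theorem red_aux (hc : S_cyc) (hr : S_rev) (V : Type) [Fintype V] [DecidableEq V]
    (T' : V → V → Prop) (hT' : IsTour T') (n : ℕ) : ∀ T : V → V → Prop, IsTour T →
    #(dif T T') = n → Bal (dif T T') → ∀ c, Pack (dif T T') c →
      ∃ m, m + 2 * c ≤ #(dif T T') ∧ Reach m T T' := by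
  induction n using Nat.strong_induction_on with
  | _ n ih =>
    intro T hT hn hb c hP
    -- the case of a positive number of sets
    have main : ∀ c, Pack (dif T T') (c + 1) →
        ∃ m, m + 2 * (c + 1) ≤ #(dif T T') ∧ Reach m T T' := by
      intro c hP
      obtain ⟨P, hP1, hP2⟩ := hP
      obtain ⟨h1, h2, h3⟩ := hP1 0
      have hO : Ori (P 0) := fun u v h4 h5 => ori_dif (T' := T') hT u v (h2 h4) (h2 h5)
      obtain ⟨a, b, l, hl, hnd, hch⟩ := hc V (P 0) h3 hO h1
      obtain ⟨K, hK⟩ : ∃ K, K = (zp a (b :: (l ++ [a]))).toFinset := ⟨_, rfl⟩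
      obtain ⟨hKb, hKc⟩ := bal_zp a b l hnd
      rw [← hK] at hKb hKc
      have hKP : K ⊆ P 0 := by
        intro e he
        rw [hK, List.mem_toFinset] at he
        exact zp_chain _ _ _ hch e he
      have hKD : K ⊆ dif T T' := hKP.trans h2
      have hchT : List.IsChain T (a :: b :: (l ++ [a])) :=
        hch.imp fun u v huv => (mem_dif.1 (h2 huv)).1
      have hreach := hr V T hT a b l hl hnd hchT
      obtain ⟨T₁, hT₁⟩ : ∃ T₁, T₁ = flp (edg (a :: b :: (l ++ [a]))) T := ⟨_, rfl⟩
      rw [← hT₁] at hreach
      have htour : IsTour T₁ := by rw [hT₁]; exact flp_tour _ hT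
      have hdif : dif T₁ T' = dif T T' \ K := by
        rw [hT₁]
        refine dif_flp hT hT' _ K hKD fun u v => ?_
        rw [mem_edg, hK, List.mem_toFinset, List.mem_toFinset]
      have hcard : #(dif T T' \ K) + #K = #(dif T T') := card_sdiff_add_card_eq_card hKD
      have hbal : Bal (dif T₁ T') := by
        intro v
        rw [hdif]
        have h4 := odg_sdiff hKD v
        have h5 := idg_sdiff hKD v
        have h6 := hb v
        have h7 := hKb v
        omega
      have hpack : Pack (dif T₁ T') c := by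
        rw [hdif]
        refine ⟨fun i => P i.succ, fun i => ⟨(hP1 i.succ).1, ?_, (hP1 i.succ).2.2⟩,
          fun i j hij => hP2 _ _ fun h => hij (Fin.succ_injective _ h)⟩
        intro e he
        rw [mem_sdiff]
        refine ⟨(hP1 i.succ).2.1 he, fun h => ?_⟩
        exact disjoint_left.1 (hP2 i.succ 0 (Fin.succ_ne_zero i)) he (hKP h)
      obtain ⟨m, hm1, hm2⟩ := ih (#(dif T₁ T')) (by rw [hdif]; omega) T₁ htour rfl hbal c hpack
      refine ⟨l.length + m, ?_, reach_trans m T' l.length T T₁ hreach hm2⟩
      rw [hdif] at hm1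
      omega
    rcases (dif T T').eq_empty_or_nonempty with he | hne
    · have h1 := eq_of_dif_empty hT hT' he
      have hc0 : c = 0 := by
        rcases Nat.eq_zero_or_pos c with h | h
        · exact h
        · obtain ⟨P, hP1, -⟩ := hP
          obtain ⟨⟨e, he1⟩, h3, -⟩ := hP1 ⟨0, h⟩
          have := h3 he1
          rw [he] at this
          exact absurd this (notMem_empty _)
      refine ⟨0, ?_, h1⟩
      rw [hc0]
      exact Nat.zero_le _
    · rcases Nat.eq_zero_or_pos c with h | h
      · obtain ⟨m, hm1, hm2⟩ := main 0 (pack_one hne hb)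
        exact ⟨m, by omega, hm2⟩
      · obtain ⟨c', rfl⟩ := Nat.exists_eq_add_of_le' h
        exact main c' hP

theorem red (hc : S_cyc) (hr : S_rev) : S_red := by
  intro V _ _ T T' hT hT' hb c hP
  exact red_aux hc hr V T' hT' _ T hT rfl hb c hP

end Pool.Agent.H457.TD
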