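import Pool.Agent.H278.TD.Def

/-!
# TD, task rev: reversal of a directed cycle (helper903)
-/

set_option autoImplicit false

namespace Pool.Agent.H903.TD

open Pool.Agent.H278.TD

variable {V : Type}

lemma reach_snoc (m : ℕ) : ∀ {T T₁ T₂ : V → V → Prop}, Reach m T T₁ → Step T₁ T₂ →
    Reach (m + 1) T T₂ := by
  induction m with
  | zero =>
    intro T T₁ T₂ h1 h2
    have h3 : T = T₁ := h1
    subst h3
    exact ⟨T₂, h2, rfl⟩
  | succ m ih =>
    intro T T₁ T₂ h1 h2
    obtain ⟨T₃, h3, h4⟩ := h1
    exact ⟨T₃, h3, ih h4 h2⟩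

lemma mem_of_edg : ∀ (L : List V) (x y : V), s(x, y) ∈ edg L → x ∈ L ∧ y ∈ L := by
  intro L
  induction L with
  | nil =>
    intro x y h
    exact absurd h (Set.notMem_empty _)
  | cons u L ih =>
    intro x y h
    cases L with
    | nil => exact absurd h (Set.notMem_empty _)
    | cons v L =>
      have h1 : s(x, y) ∈ insert s(u, v) (edg (v :: L)) := h
      rcases Set.mem_insert_iff.1 h1 with h2 | h2
      · rw [Sym2.eq_iff] at h2
        rcases h2 with ⟨rfl, rfl⟩ | ⟨rfl, rfl⟩
        · exact ⟨List.mem_cons_self, List.mem_cons_of_mem _ List.mem_cons_self⟩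
        · exact ⟨List.mem_cons_of_mem _ List.mem_cons_self, List.mem_cons_self⟩
      · obtain ⟨h3, h4⟩ := ih x y h2
        exact ⟨List.mem_cons_of_mem _ h3, List.mem_cons_of_mem _ h4⟩

lemma flp_chain (S : Set (Sym2 V)) (T : V → V → Prop) : ∀ (L : List V), List.IsChain T L →
    (∀ x y, s(x, y) ∈ edg L → s(x, y) ∉ S) → List.IsChain (flp S T) L := by
  intro L
  induction L with
  | nil =>
    intro _ _
    exact List.IsChain.nil
  | cons u L ih =>
    intro h1 h2
    cases L with
    | nil => exact List.IsChain.singleton _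
    | cons v L =>
      rw [List.isChain_cons_cons] at h1 ⊢
      refine ⟨Or.inr ⟨h2 u v (Set.mem_insert _ _), h1.1⟩, ih h1.2 fun x y h => h2 x y ?_⟩
      exact Set.mem_insert_of_mem _ h

lemma flp_flp (S R Q : Set (Sym2 V)) (T : V → V → Prop)
    (h : ∀ x y, s(x, y) ∈ Q ↔ ((s(x, y) ∈ S ∧ s(x, y) ∉ R) ∨ (s(x, y) ∉ S ∧ s(x, y) ∈ R))) :
    flp S (flp R T) = flp Q T := by
  funext u v
  apply propext
  have h1 := h u v
  have h2 : s(v, u) = s(u, v) := Sym2.eq_swap
  unfold flp
  rw [h2]
  tauto

lemma flp_tour (S : Set (Sym2 V)) {T : V → V → Prop} (hT : IsTour T) : IsTour (flp S T) := by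
  intro u v
  have h1 := hT u v
  have h2 := hT v u
  have h3 : s(v, u) = s(u, v) := Sym2.eq_swap
  unfold flp
  rw [h3]
  constructor
  · rintro (⟨h4, h5⟩ | ⟨h4, h5⟩) (⟨h6, h7⟩ | ⟨h6, h7⟩)
    · exact h1.1 h7 h5
    · exact h6 h4
    · exact h4 h6
    · exact h1.1 h5 h7
  · intro h4
    by_cases h5 : s(u, v) ∈ S
    · rcases h1.2 h4 with h6 | h6
      · exact Or.inr (Or.inl ⟨h5, h6⟩)
      · exact Or.inl (Or.inl ⟨h5, h6⟩)
    · rcases h1.2 h4 with h6 | h6
      · exact Or.inl (Or.inr ⟨h5, h6⟩)
      · exact Or.inr (Or.inr ⟨h5, h6⟩)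

theorem rev : S_rev := by
  intro V T hT a b l
  induction l generalizing T a b with
  | nil =>
    intro h
    exact absurd rfl h
  | cons c l ih =>
    intro _ hnd hch
    rw [List.nodup_cons, List.nodup_cons] at hnd
    obtain ⟨ha, hb, hcl⟩ := hnd
    have hab : a ≠ b := fun h => ha (by rw [h]; exact List.mem_cons_self)
    have hac : a ≠ c := fun h => ha (by rw [h]; exact List.mem_cons_of_mem _ List.mem_cons_self)
    have hal : a ∉ l := fun h => ha (List.mem_cons_of_mem _ (List.mem_cons_of_mem _ h))
    have hbc : b ≠ c := fun h => hb (by rw [h]; exact List.mem_cons_self)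
    have hbl : b ∉ l := fun h => hb (List.mem_cons_of_mem _ h)
    have hcl' : c ∉ l := (List.nodup_cons.1 hcl).1
    have hch' : List.IsChain T (a :: b :: c :: (l ++ [a])) := hch
    rw [List.isChain_cons_cons, List.isChain_cons_cons] at hch'
    obtain ⟨hTab, hTbc, hchc⟩ := hch'
    have hcyc : edg (a :: b :: (c :: l ++ [a])) =
        insert s(a, b) (insert s(b, c) (edg (c :: (l ++ [a])))) := rfl
    cases l with
    | nil =>
      have hTca : T c a := by
        have h1 : List.IsChain T [c, a] := hchc
        rw [List.isChain_cons_cons] at h1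
        exact h1.1
      refine ⟨_, ⟨a, b, c, hTab, hTbc, hTca, rfl⟩, ?_⟩
      show flp {s(a, b), s(b, c), s(c, a)} T = flp (edg (a :: b :: ([c] ++ [a]))) T
      rw [hcyc]
      have h1 : edg (c :: ([] ++ [a])) = insert s(c, a) (∅ : Set (Sym2 V)) := rfl
      rw [h1]
      have h2 : ({s(a, b), s(b, c), s(c, a)} : Set (Sym2 V)) =
          insert s(a, b) (insert s(b, c) (insert s(c, a) ∅)) := by
        ext e
        simp
      rw [h2]
    | cons d l =>
      -- the pairs
      have hP1 : ∀ x : V, s(x, b) ∉ edg (c :: (d :: l ++ [a])) := by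
        intro x h
        have h1 := (mem_of_edg _ _ _ h).2
        simp only [List.mem_cons, List.mem_append, List.not_mem_nil, or_false, List.cons_append] at h1
        rcases h1 with h1 | h1 | h1 | h1
        · exact hbc h1
        · exact hbl (by rw [h1]; exact List.mem_cons_self)
        · exact hbl (List.mem_cons_of_mem _ h1)
        · exact hab h1.symm
      have hP2 : s(a, c) ∉ edg (c :: (d :: l ++ [a])) := by
        intro h
        have h1 : s(a, c) ∈ insert s(c, d) (edg (d :: (l ++ [a]))) := h
        rcases Set.mem_insert_iff.1 h1 with h2 | h2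
        · rw [Sym2.eq_iff] at h2
          rcases h2 with ⟨h3, h4⟩ | ⟨h3, h4⟩
          · exact hac h3
          · exact hal (by rw [h3]; exact List.mem_cons_self)
        · have h3 := (mem_of_edg _ _ _ h2).2
          simp only [List.mem_cons, List.mem_append, List.not_mem_nil, or_false] at h3
          rcases h3 with h3 | h3 | h3
          · exact hcl' (by rw [h3]; exact List.mem_cons_self)
          · exact hcl' (List.mem_cons_of_mem _ h3)
          · exact hac h3.symm
      obtain ⟨P, hP⟩ : ∃ P, P = edg (c :: (d :: l ++ [a])) := ⟨_, rfl⟩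
      rw [← hP] at hP1 hP2 hcyc
      have hcyc' : edg (a :: c :: (d :: l ++ [a])) = insert s(a, c) P := by
        rw [hP]
        rfl
      rw [hcyc]
      have hPab : s(a, b) ∉ P := hP1 a
      have hPbc : s(b, c) ∉ P := by
        rw [Sym2.eq_swap]
        exact hP1 c
      have e1 : s(a, b) ≠ s(b, c) := by
        rw [Ne, Sym2.eq_iff]
        rintro (⟨h1, -⟩ | ⟨h1, -⟩)
        · exact hab h1
        · exact hac h1
      have e2 : s(a, b) ≠ s(a, c) := by
        rw [Ne, Sym2.eq_iff]
        rintro (⟨-, h1⟩ | ⟨h1, -⟩)
        · exact hbc h1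
        · exact hac h1
      have e3 : s(b, c) ≠ s(a, c) := by
        rw [Ne, Sym2.eq_iff]
        rintro (⟨h1, -⟩ | ⟨h1, -⟩)
        · exact hab h1.symm
        · exact hbc h1
      have e4 : s(c, a) = s(a, c) := Sym2.eq_swap
      have hnd' : (a :: c :: d :: l).Nodup := by
        rw [List.nodup_cons]
        refine ⟨?_, hcl⟩
        intro h
        rcases List.mem_cons.1 h with h1 | h1
        · exact hac h1
        · exact hal h1
      have hsym : ∀ x y : V, s(x, y) ∈ insert s(a, b) (insert s(b, c) P) ↔
          ((s(x, y) ∈ insert s(a, c) P ∧ s(x, y) ∉ ({s(a, b), s(b, c), s(c, a)} : Set (Sym2 V))) ∨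
          (s(x, y) ∉ insert s(a, c) P ∧ s(x, y) ∈ ({s(a, b), s(b, c), s(c, a)} : Set (Sym2 V)))) := by
        intro x y
        generalize s(x, y) = e
        simp only [Set.mem_insert_iff, Set.mem_singleton_iff, e4]
        constructor
        · rintro (rfl | rfl | h)
          · right
            refine ⟨?_, Or.inl rfl⟩
            rintro (h | h)
            · exact e2 h
            · exact hPab h
          · right
            refine ⟨?_, Or.inr (Or.inl rfl)⟩
            rintro (h | h)
            · exact e3 h
            · exact hPbc h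
          · left
            refine ⟨Or.inr h, ?_⟩
            rintro (rfl | rfl | rfl)
            · exact hPab h
            · exact hPbc h
            · exact hP2 h
        · rintro (⟨h1, h2⟩ | ⟨h1, h2⟩)
          · rcases h1 with h1 | h1
            · exact absurd (Or.inr (Or.inr h1)) h2
            · exact Or.inr (Or.inr h1)
          · rcases h2 with h2 | h2 | h2
            · exact Or.inl h2
            · exact Or.inr (Or.inl h2)
            · exact absurd (Or.inl h2) h1
      show Reach ((d :: l).length + 1) T (flp (insert s(a, b) (insert s(b, c) P)) T)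
      rcases (hT a c).2 hac with hTac | hTca
      · -- first the shorter cycle
        have h1 := ih T hT a c (List.cons_ne_nil _ _) hnd' (by
          show List.IsChain T (a :: c :: (d :: l ++ [a]))
          rw [List.isChain_cons_cons]
          exact ⟨hTac, hchc⟩)
        rw [hcyc'] at h1
        refine reach_snoc _ h1 ⟨a, b, c, ?_, ?_, ?_, ?_⟩
        · refine Or.inr ⟨?_, hTab⟩
          rintro (h | h)
          · exact e2 h
          · exact hPab h
        · refine Or.inr ⟨?_, hTbc⟩
          rintro (h | h)
          · exact e3 h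
          · exact hPbc h
        · refine Or.inl ⟨?_, hTac⟩
          rw [e4]
          exact Set.mem_insert _ _
        · symm
          apply flp_flp
          intro x y
          rw [hsym x y]
          tauto
      · -- first the triangle
        have hT1 := flp_tour {s(a, b), s(b, c), s(c, a)} hT
        refine ⟨_, ⟨a, b, c, hTab, hTbc, hTca, rfl⟩, ?_⟩
        have h1 := ih (flp {s(a, b), s(b, c), s(c, a)} T) hT1 a c (List.cons_ne_nil _ _) hnd' (by
          show List.IsChain _ (a :: c :: (d :: l ++ [a]))
          rw [List.isChain_cons_cons]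
          refine ⟨Or.inl ⟨?_, hTca⟩, ?_⟩
          · rw [e4]
            exact Or.inr (Or.inr rfl)
          · refine flp_chain _ _ _ hchc ?_
            intro x y hxy
            rw [← hP] at hxy
            rw [e4]
            rintro (h | h | h)
            · rw [h] at hxy
              exact hPab hxy
            · rw [h] at hxy
              exact hPbc hxy
            · rw [h] at hxy
              exact hP2 hxy)
        rw [hcyc'] at h1
        have h2 := flp_flp (insert s(a, c) P) {s(a, b), s(b, c), s(c, a)}
          (insert s(a, b) (insert s(b, c) P)) T hsym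
        rw [← h2]
        exact h1

end Pool.Agent.H903.TD
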