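import Pool.Agent.H278.TD.Graph
import Pool.Agent.H278.TD.T_Cyc
import Pool.Agent.H278.TD.T_Rev
import Pool.Agent.H278.TD.T_Red
import Pool.Agent.H278.TD.T_Bal
import Pool.Agent.H278.TD.T_Lp
import Pool.Agent.H278.TD.T_Av
import Pool.Agent.H278.TD.T_E41
import Pool.Agent.H278.TD.T_E2
import Pool.Agent.H278.TD.T_E3
import Pool.Agent.H278.TD.T_Loc
import Pool.Agent.H278.TD.T_Good
import Pool.Agent.H278.TD.T_Dual
import Pool.Agent.H278.TD.T_Frac
import Pool.Agent.H278.TD.T_Nib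
import Pool.Agent.H278.TD.T_Fin

/-!
# Interchange distance of tournaments and packings of directed cycles: assembly
-/

set_option autoImplicit false
set_option linter.all false

open Finset
open Pool.Agent.Results.MP_2634a8_co.Fractional (DiCycle)

namespace Pool.Agent.H278.TD

theorem red : S_red := Pool.Agent.H457.TD.red Pool.Agent.H801.TD.cyc Pool.Agent.H903.TD.rev

theorem bal : S_bal := Pool.Agent.H336.TD.bal

theorem dual : S_dual :=
  Pool.Agent.H59.TD.t_dual (Pool.Agent.H25.TD.e4 Pool.Agent.H296.TD.av) (Pool.Agent.H25.TD.e1 Pool.Agent.H296.TD.av)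
    (Pool.Agent.H249.TD.e2 Pool.Agent.H296.TD.av) (Pool.Agent.H719.TD.e3 Pool.Agent.H296.TD.av)
    (Pool.Agent.H396.TD.good Pool.Agent.H190.TD.loc)

theorem pk : S_pk := Pool.Agent.H163.TD.pk (Pool.Agent.H728.TD.frac Pool.Agent.H84.TD.lp dual) Pool.Agent.H784.TD.nib

theorem pack_of_cycles {V : Type} [Fintype V] [DecidableEq V] {E : Finset (V × V)} {c : ℕ}
    (C : Fin c → DiCycle (Adj E)) (hd : ∀ i j, i ≠ j → Disjoint (arcs (C i)) (arcs (C j))) : Pack E c := by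
  refine ⟨fun i => arcs (C i), fun i => ⟨?_, ?_, Pool.Agent.H163.TD.arcs_bal (C i)⟩, hd⟩
  · exact ⟨((C i).vert 0, (C i).vert (0 + 1)), Finset.mem_image.2 ⟨0, Finset.mem_univ _, rfl⟩⟩
  · intro e he
    obtain ⟨j, -, rfl⟩ := Finset.mem_image.1 he
    exact (C i).adj j

/-- the distance in terms of the numbers `d v` of the arcs at `v` which have to be reversed -/
theorem refined (ε : ℝ) (hε : 0 < ε) : ∃ n₀ : ℕ, 1 ≤ n₀ ∧ ∀ n ≥ n₀, ∀ T T' : Fin n → Fin n → Prop, IsTour T →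
    IsTour T' → (∀ v, Nat.card {w // T v w} = Nat.card {w // T' v w}) →
    ∃ m : ℕ, (m : ℝ) ≤ (n : ℝ) ^ 2 / 4 - (∑ v, ((n : ℝ) - 2 * odg (dif T T') v) ^ 2) / (4 * n) +
      ε * (n : ℝ) ^ 2 ∧ Reach m T T' := by
  obtain ⟨n₀, hn₀⟩ := pk (ε / 2) (by positivity)
  refine ⟨max n₀ 1, le_max_right _ _, fun n hn T T' hT hT' hsc => ?_⟩
  obtain ⟨hB, hO⟩ := bal (Fin n) T T' hT hT' hsc
  obtain ⟨c, C, hd, hc⟩ := hn₀ (Fin n) (by
    rw [Fintype.card_fin]
    exact (le_max_left _ _).trans hn) (dif T T') hO hB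
  obtain ⟨m, hm, hR⟩ := red (Fin n) T T' hT hT' hB c (pack_of_cycles C hd)
  refine ⟨m, ?_, hR⟩
  have hn1 : (1 : ℝ) ≤ n := by
    have : 1 ≤ n := (le_max_right _ _).trans hn
    exact_mod_cast this
  rw [← Pool.Agent.H163.TD.sum_odg] at hm
  have hm' : (m : ℝ) + 2 * c ≤ ∑ v, (odg (dif T T') v : ℝ) := by exact_mod_cast hm
  rw [Fintype.card_fin] at hc
  have h1 : ∑ v, (odg (dif T T') v : ℝ) - (∑ v, (odg (dif T T') v : ℝ) ^ 2) / n =
      (n : ℝ) ^ 2 / 4 - (∑ v, ((n : ℝ) - 2 * odg (dif T T') v) ^ 2) / (4 * n) := by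
    have h2 : (n : ℝ) ^ 2 / 4 = ∑ _v : Fin n, (n : ℝ) / 4 := by
      rw [Finset.sum_const, Finset.card_univ, Fintype.card_fin, nsmul_eq_mul]
      ring
    rw [h2, Finset.sum_div, Finset.sum_div, ← Finset.sum_sub_distrib, ← Finset.sum_sub_distrib]
    refine Finset.sum_congr rfl fun v _ => ?_
    have hn0 : (n : ℝ) ≠ 0 := by linarith
    field_simp
    ring
  have h3 : 2 * ((∑ v, (odg (dif T T') v : ℝ) ^ 2) / (2 * n)) =
      (∑ v, (odg (dif T T') v : ℝ) ^ 2) / n := by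
    field_simp
  linarith

end Pool.Agent.H278.TD
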