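import Pool.Agent.H278.TD.Def

/-!
# The interchange graph of a score vector
-/

set_option autoImplicit false
set_option linter.all false

open Finset

namespace Pool.Agent.H278.TD

/-- The tournaments on the vertices `Fin n` with the score vector `R`: `arc u v` means that the
arc between `u` and `v` goes from `u` to `v`. -/
@[ext] structure Tour (n : ℕ) (R : Fin n → ℕ) where
  arc : Fin n → Fin n → Prop
  irrefl : ∀ v, ¬ arc v v
  total : ∀ u v, u ≠ v → (arc u v ∧ ¬ arc v u) ∨ (arc v u ∧ ¬ arc u v)
  score : ∀ v, Nat.card {w // arc v w} = R v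

variable {n : ℕ} {R : Fin n → ℕ}

/-- `T'` arises from `T` by reversing the three arcs of a directed 3-cycle `a → b → c → a` of
`T`. -/
def Reversal (T T' : Tour n R) : Prop :=
  ∃ a b c, T.arc a b ∧ T.arc b c ∧ T.arc c a ∧
    ∀ u v, T'.arc u v ↔ if s(u, v) ∈ ({s(a, b), s(b, c), s(c, a)} : Set (Sym2 (Fin n))) then
      T.arc v u else T.arc u v

theorem Tour.isTour (T : Tour n R) : IsTour T.arc := by
  intro u v
  by_cases h : u = v
  · subst h
    exact ⟨fun h => absurd h (T.irrefl u), fun h => absurd rfl h⟩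
  · rcases T.total u v h with ⟨h1, h2⟩ | ⟨h1, h2⟩
    · exact ⟨fun _ => h2, fun _ => Or.inl h1⟩
    · exact ⟨fun h => absurd h h2, fun _ => Or.inr h1⟩

open Classical in
theorem reversal_iff (T T' : Tour n R) : Reversal T T' ↔ Step T.arc T'.arc := by
  constructor
  · rintro ⟨a, b, c, h1, h2, h3, h4⟩
    refine ⟨a, b, c, h1, h2, h3, ?_⟩
    funext u v
    apply propext
    rw [h4]
    unfold flp
    split_ifs with h
    · constructor
      · exact fun h5 => Or.inl ⟨h, h5⟩
      · rintro (⟨_, h5⟩ | ⟨h5, _⟩)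
        · exact h5
        · exact absurd h h5
    · constructor
      · exact fun h5 => Or.inr ⟨h, h5⟩
      · rintro (⟨h5, _⟩ | ⟨_, h5⟩)
        · exact absurd h5 h
        · exact h5
  · rintro ⟨a, b, c, h1, h2, h3, h4⟩
    refine ⟨a, b, c, h1, h2, h3, ?_⟩
    intro u v
    rw [h4]
    unfold flp
    split_ifs with h
    · constructor
      · rintro (⟨_, h5⟩ | ⟨h5, _⟩)
        · exact h5
        · exact absurd h h5
      · exact fun h5 => Or.inl ⟨h, h5⟩
    · constructor
      · rintro (⟨h5, _⟩ | ⟨_, h5⟩)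
        · exact absurd h5 h
        · exact h5
      · exact fun h5 => Or.inr ⟨h, h5⟩

theorem step_symm {V : Type} {T T' : V → V → Prop} (hT : IsTour T) (h : Step T T') : Step T' T := by
  obtain ⟨a, b, c, h1, h2, h3, rfl⟩ := h
  have hS : ({s(a, c), s(c, b), s(b, a)} : Set (Sym2 V)) = {s(a, b), s(b, c), s(c, a)} := by
    rw [Sym2.eq_swap (a := a) (b := c), Sym2.eq_swap (a := c) (b := b), Sym2.eq_swap (a := b) (b := a)]
    ext x
    simp only [Set.mem_insert_iff, Set.mem_singleton_iff]
    tauto
  refine ⟨a, c, b, ?_, ?_, ?_, ?_⟩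
  · exact Or.inl ⟨by rw [Sym2.eq_swap]; simp, h3⟩
  · exact Or.inl ⟨by rw [Sym2.eq_swap]; simp, h2⟩
  · exact Or.inl ⟨by rw [Sym2.eq_swap]; simp, h1⟩
  · rw [hS]
    funext u v
    apply propext
    unfold flp
    by_cases h : s(u, v) ∈ ({s(a, b), s(b, c), s(c, a)} : Set (Sym2 V))
    · have h' : s(v, u) ∈ ({s(a, b), s(b, c), s(c, a)} : Set (Sym2 V)) := by
        rwa [Sym2.eq_swap (a := v) (b := u)]
      simp only [h, h', true_and, not_true_eq_false, false_and, or_false]
    · have h' : ¬ s(v, u) ∈ ({s(a, b), s(b, c), s(c, a)} : Set (Sym2 V)) := by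
        rwa [Sym2.eq_swap (a := v) (b := u)]
      simp only [h, h', false_and, not_false_eq_true, true_and, false_or]

theorem step_ne {V : Type} {T : V → V → Prop} (hT : IsTour T) : ¬ Step T T := by
  rintro ⟨a, b, c, h1, h2, h3, h4⟩
  have h5 : ¬ T b a := (hT a b).1 h1
  have h6 : T b a := by
    rw [h4]
    exact Or.inl ⟨by rw [Sym2.eq_swap]; simp, h1⟩
  exact h5 h6

/-- The interchange graph `G(R)`: its vertices are the tournaments with score vector `R`, two
tournaments are adjacent if one arises from the other by reversing a directed 3-cycle. -/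
def interchangeGraph (n : ℕ) (R : Fin n → ℕ) : SimpleGraph (Tour n R) where
  Adj T T' := Reversal T T'
  symm := ⟨fun T T' h => (reversal_iff _ _).2 (step_symm T.isTour ((reversal_iff _ _).1 h))⟩
  loopless := ⟨fun T h => step_ne T.isTour ((reversal_iff _ _).1 h)⟩

/-- the reversal of a directed 3-cycle gives a tournament -/
theorem step_tour {V : Type} {T T' : V → V → Prop} (hT : IsTour T) (h : Step T T') : IsTour T' := by
  obtain ⟨a, b, c, h1, h2, h3, rfl⟩ := h
  intro u v
  unfold flp
  have h0 := hT u v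
  have h0' := hT v u
  rw [Sym2.eq_swap (a := v) (b := u)]
  constructor
  · rintro (⟨h, h4⟩ | ⟨h, h4⟩) (⟨h', h5⟩ | ⟨h', h5⟩)
    · exact h0.1 h5 h4
    · exact h' h
    · exact h h'
    · exact h0.1 h4 h5
  · intro huv
    by_cases h : s(u, v) ∈ ({s(a, b), s(b, c), s(c, a)} : Set (Sym2 V))
    · rcases h0.2 huv with h4 | h4
      · exact Or.inr (Or.inl ⟨h, h4⟩)
      · exact Or.inl (Or.inl ⟨h, h4⟩)
    · rcases h0.2 huv with h4 | h4
      · exact Or.inl (Or.inr ⟨h, h4⟩)
      · exact Or.inr (Or.inr ⟨h, h4⟩)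

theorem flp_off {V : Type} {T : V → V → Prop} {S : Set (Sym2 V)} {u v : V} (h : s(u, v) ∉ S) :
    flp S T u v ↔ T u v := by
  unfold flp
  constructor
  · rintro (⟨h1, _⟩ | ⟨_, h1⟩)
    · exact absurd h1 h
    · exact h1
  · exact fun h1 => Or.inr ⟨h, h1⟩

theorem flp_on {V : Type} {T : V → V → Prop} {S : Set (Sym2 V)} {u v : V} (h : s(u, v) ∈ S) :
    flp S T u v ↔ T v u := by
  unfold flp
  constructor
  · rintro (⟨_, h1⟩ | ⟨h1, _⟩)
    · exact h1
    · exact absurd h h1
  · exact fun h1 => Or.inl ⟨h, h1⟩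

/-- at a vertex of the 3-cycle the out-neighbours change by a transposition -/
theorem step_card_aux {V : Type} [DecidableEq V] {T : V → V → Prop} (hT : IsTour T) {a b c : V}
    (h1 : T a b) (h2 : T b c) (h3 : T c a) {S : Set (Sym2 V)}
    (hS : ∀ w, s(a, w) ∈ S ↔ w = b ∨ w = c) :
    Nat.card {w // flp S T a w} = Nat.card {w // T a w} := by
  have hbc : b ≠ c := fun h => by subst h; exact (hT b b).1 h2 h2
  refine Nat.card_congr ((Equiv.swap b c).subtypeEquiv fun w => ?_)
  by_cases hb : w = b
  · subst hb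
    rw [Equiv.swap_apply_left, flp_on ((hS w).2 (Or.inl rfl))]
    exact ⟨fun h => absurd h ((hT a w).1 h1), fun h => absurd h3 ((hT a c).1 h)⟩
  · by_cases hc : w = c
    · subst hc
      rw [Equiv.swap_apply_right, flp_on ((hS w).2 (Or.inr rfl))]
      exact ⟨fun _ => h1, fun _ => h3⟩
    · rw [Equiv.swap_apply_of_ne_of_ne hb hc, flp_off]
      rw [hS]
      tauto

theorem step_score {V : Type} {T T' : V → V → Prop} (hT : IsTour T) (h : Step T T') (v : V) :
    Nat.card {w // T' v w} = Nat.card {w // T v w} := by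
  classical
  obtain ⟨a, b, c, h1, h2, h3, rfl⟩ := h
  have hab : a ≠ b := fun h => by subst h; exact (hT a a).1 h1 h1
  have hbc : b ≠ c := fun h => by subst h; exact (hT b b).1 h2 h2
  have hca : c ≠ a := fun h => by subst h; exact (hT c c).1 h3 h3
  by_cases hva : v = a
  · subst hva
    refine step_card_aux hT h1 h2 h3 fun w => ?_
    simp only [Set.mem_insert_iff, Set.mem_singleton_iff, Sym2.eq_iff]
    tauto
  · by_cases hvb : v = b
    · subst hvb
      refine step_card_aux hT h2 h3 h1 fun w => ?_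
      simp only [Set.mem_insert_iff, Set.mem_singleton_iff, Sym2.eq_iff]
      tauto
    · by_cases hvc : v = c
      · subst hvc
        refine step_card_aux hT h3 h1 h2 fun w => ?_
        simp only [Set.mem_insert_iff, Set.mem_singleton_iff, Sym2.eq_iff]
        tauto
      · have : ∀ w, flp ({s(a, b), s(b, c), s(c, a)} : Set (Sym2 V)) T v w ↔ T v w := by
          intro w
          apply flp_off
          simp only [Set.mem_insert_iff, Set.mem_singleton_iff, Sym2.eq_iff]
          tauto
        exact Nat.card_congr (Equiv.subtypeEquivRight this)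

/-- a sequence of reversals is a walk in the interchange graph -/
theorem exists_walk (m : ℕ) : ∀ T T' : Tour n R, Reach m T.arc T'.arc →
    ∃ p : (interchangeGraph n R).Walk T T', p.length = m := by
  induction m with
  | zero =>
    intro T T' h
    have : T = T' := Tour.ext h
    subst this
    exact ⟨SimpleGraph.Walk.nil, rfl⟩
  | succ m ih =>
    rintro T T' ⟨T₁, h1, h2⟩
    have h3 := step_tour T.isTour h1
    let T₂ : Tour n R :=
      { arc := T₁
        irrefl := fun v h => (h3 v v).1 h h
        total := by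
          intro u v huv
          rcases (h3 u v).2 huv with h | h
          · exact Or.inl ⟨h, (h3 u v).1 h⟩
          · exact Or.inr ⟨h, (h3 v u).1 h⟩
        score := fun v => by rw [step_score T.isTour h1, T.score] }
    obtain ⟨p, hp⟩ := ih T₂ T' h2
    have hadj : (interchangeGraph n R).Adj T T₂ := (reversal_iff _ _).2 h1
    exact ⟨SimpleGraph.Walk.cons hadj p, by rw [SimpleGraph.Walk.length_cons, hp]⟩

end Pool.Agent.H278.TD
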