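import Pool.Agent.H278.TD.Def

/-!
# Packings of directed cycles in balanced digraphs with digons (project TD)
-/

set_option autoImplicit false

open Finset
open Pool.Agent.Results.MP_2634a8_co.Fractional (DiCycle)

namespace Pool.Agent.H661.TD

open Pool.Agent.H278.TD

variable {V : Type} [DecidableEq V]

/-- the arcs whose reverse is an arc -/
def dg (E : Finset (V × V)) : Finset (V × V) := E.filter fun e => e.swap ∈ E

/-- the arcs whose reverse is not an arc -/
def og (E : Finset (V × V)) : Finset (V × V) := E.filter fun e => ¬ e.swap ∈ E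

theorem odg_add (E : Finset (V × V)) (v : V) : odg (dg E) v + odg (og E) v = odg E v := by
  unfold odg dg og
  rw [filter_filter, filter_filter]
  rw [← card_filter_add_card_filter_not (s := E.filter fun e => e.1 = v) (fun e => e.swap ∈ E)]
  rw [filter_filter, filter_filter]
  congr 1 <;> congr 1 <;> ext e <;> simp only [mem_filter] <;> tauto

theorem idg_add (E : Finset (V × V)) (v : V) : idg (dg E) v + idg (og E) v = idg E v := by
  unfold idg dg og
  rw [filter_filter, filter_filter]
  rw [← card_filter_add_card_filter_not (s := E.filter fun e => e.2 = v) (fun e => e.swap ∈ E)]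
  rw [filter_filter, filter_filter]
  congr 1 <;> congr 1 <;> ext e <;> simp only [mem_filter] <;> tauto

theorem mem_dg {E : Finset (V × V)} {u v : V} : (u, v) ∈ dg E ↔ (u, v) ∈ E ∧ (v, u) ∈ E := by
  simp [dg]

theorem mem_og {E : Finset (V × V)} {u v : V} : (u, v) ∈ og E ↔ (u, v) ∈ E ∧ (v, u) ∉ E := by
  simp [og]

theorem bal_dg (E : Finset (V × V)) : Bal (dg E) := by
  intro v
  unfold odg idg
  refine card_bij' (fun e _ => e.swap) (fun e _ => e.swap) ?_ ?_ ?_ ?_
  · rintro ⟨a, b⟩ h
    simp only [mem_filter, mem_dg, Prod.swap_prod_mk] at h ⊢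
    exact ⟨⟨h.1.2, h.1.1⟩, h.2⟩
  · rintro ⟨a, b⟩ h
    simp only [mem_filter, mem_dg, Prod.swap_prod_mk] at h ⊢
    exact ⟨⟨h.1.2, h.1.1⟩, h.2⟩
  · intro e _
    simp
  · intro e _
    simp

theorem bal_og {E : Finset (V × V)} (h : Bal E) : Bal (og E) := by
  intro v
  have h1 := odg_add E v
  have h2 := idg_add E v
  have h3 := bal_dg E v
  have h4 := h v
  omega

theorem ori_og (E : Finset (V × V)) : Ori (og E) := by
  intro u v h h'
  rw [mem_og] at h h'
  exact h.2 h'.1

section fin

variable [Fintype V]

theorem odg_eq (E : Finset (V × V)) (v : V) : odg E v = #(univ.filter fun u => (v, u) ∈ E) := by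
  unfold odg
  refine card_bij' (fun e _ => e.2) (fun u _ => (v, u)) ?_ ?_ ?_ ?_
  · rintro ⟨a, b⟩ h
    simp only [mem_filter, mem_univ, true_and] at h ⊢
    rw [← h.2]; exact h.1
  · intro u h
    simp only [mem_filter, mem_univ, true_and] at h ⊢
    exact ⟨h, trivial⟩
  · rintro ⟨a, b⟩ h
    simp only [mem_filter] at h
    simp [h.2]
  · intro u _
    rfl

theorem idg_eq (E : Finset (V × V)) (v : V) : idg E v = #(univ.filter fun u => (u, v) ∈ E) := by
  unfold idg
  refine card_bij' (fun e _ => e.1) (fun u _ => (u, v)) ?_ ?_ ?_ ?_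
  · rintro ⟨a, b⟩ h
    simp only [mem_filter, mem_univ, true_and] at h ⊢
    rw [← h.2]; exact h.1
  · intro u h
    simp only [mem_filter, mem_univ, true_and] at h ⊢
    exact ⟨h, trivial⟩
  · rintro ⟨a, b⟩ h
    simp only [mem_filter] at h
    simp [h.2]
  · intro u _
    rfl

theorem deg_le {E : Finset (V × V)} (h : Bal E) (v : V) :
    odg (dg E) v + 2 * odg (og E) v ≤ Fintype.card V := by
  have h1 : odg (og E) v = idg (og E) v := bal_og h v
  have h2 : odg (dg E) v + 2 * odg (og E) v = odg (dg E) v + (odg (og E) v + idg (og E) v) := by omega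
  rw [h2, odg_eq (dg E), odg_eq (og E), idg_eq (og E)]
  rw [← card_union_of_disjoint, ← card_union_of_disjoint]
  · exact card_le_univ _
  · rw [Finset.disjoint_left]
    intro u hu hu'
    simp only [mem_filter, mem_univ, true_and, mem_union, mem_dg, mem_og] at hu hu'
    rcases hu' with hu' | hu'
    · exact hu'.2 hu.2
    · exact hu'.2 hu.1
  · rw [Finset.disjoint_left]
    intro u hu hu'
    simp only [mem_filter, mem_univ, true_and, mem_og] at hu hu'
    exact hu.2 hu'.1

theorem sum_odg (E : Finset (V × V)) : ∑ v, odg E v = #E := by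
  unfold odg
  exact (card_eq_sum_card_fiberwise (f := fun e : V × V => e.1) (t := univ)
    (fun e _ => mem_coe.2 (mem_univ _))).symm

/-- one arc of every digon -/
noncomputable def rep (E : Finset (V × V)) : Finset (V × V) :=
  (dg E).filter fun e => Fintype.equivFin V e.1 < Fintype.equivFin V e.2

theorem card_dg {E : Finset (V × V)} (hl : ∀ v, (v, v) ∉ E) : #(dg E) = 2 * #(rep E) := by
  have h1 := card_filter_add_card_filter_not (s := dg E)
    (fun e => Fintype.equivFin V e.1 < Fintype.equivFin V e.2)
  have h2 : #((dg E).filter fun e => ¬ Fintype.equivFin V e.1 < Fintype.equivFin V e.2) =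
      #(rep E) := by
    unfold rep
    refine card_bij' (fun e _ => e.swap) (fun e _ => e.swap) ?_ ?_ ?_ ?_
    · rintro ⟨a, b⟩ h
      simp only [mem_filter, mem_dg, Prod.swap_prod_mk] at h ⊢
      refine ⟨⟨h.1.2, h.1.1⟩, lt_of_le_of_ne (not_lt.1 h.2) ?_⟩
      intro hab
      have : b = a := (Fintype.equivFin V).injective hab
      subst this
      exact hl _ h.1.1
    · rintro ⟨a, b⟩ h
      simp only [mem_filter, mem_dg, Prod.swap_prod_mk] at h ⊢
      exact ⟨⟨h.1.2, h.1.1⟩, not_lt.2 h.2.le⟩
    · intro e _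
      simp
    · intro e _
      simp
  have h3 : #(rep E) = #((dg E).filter fun e => Fintype.equivFin V e.1 < Fintype.equivFin V e.2) := rfl
  omega

end fin

/-- the directed cycle of a digon -/
def dcyc {E : Finset (V × V)} (a b : V) (hne : a ≠ b) (h1 : (a, b) ∈ E) (h2 : (b, a) ∈ E) :
    DiCycle (Adj E) where
  len := 0
  vert := fun i => if i = 0 then a else b
  inj := by
    intro i j hij
    fin_cases i <;> fin_cases j <;> simp at hij ⊢
    · exact hne hij
    · exact hne hij.symm
  adj := by
    intro i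
    fin_cases i
    · simpa [Adj] using h1
    · simpa [Adj] using h2

theorem arcs_dcyc {E : Finset (V × V)} (a b : V) (hne : a ≠ b) (h1 : (a, b) ∈ E) (h2 : (b, a) ∈ E) :
    ∀ e ∈ arcs (dcyc a b hne h1 h2), e = (a, b) ∨ e = (b, a) := by
  intro e he
  unfold arcs dcyc at he
  simp only [mem_image, mem_univ, true_and] at he
  obtain ⟨i, hi⟩ := he
  fin_cases i
  · left; simpa using hi.symm
  · right
    have h3 : ((1 : Fin (0 + 2)) + 1) = 0 := rfl
    have h4 : e = (if (1 : Fin (0 + 2)) = 0 then a else b, if (1 : Fin (0 + 2)) + 1 = 0 then a else b) :=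
      hi.symm
    rw [h4, h3]
    simp

/-- a cycle of a subdigraph -/
def lift {E F : Finset (V × V)} (h : F ⊆ E) (C : DiCycle (Adj F)) : DiCycle (Adj E) where
  len := C.len
  vert := C.vert
  inj := C.inj
  adj := fun i => h (C.adj i)

theorem arcs_lift {E F : Finset (V × V)} (h : F ⊆ E) (C : DiCycle (Adj F)) :
    arcs (lift h C) = arcs C := rfl

theorem arcs_sub {F : Finset (V × V)} (C : DiCycle (Adj F)) : ∀ e ∈ arcs C, e ∈ F := by
  intro e he
  unfold arcs at he
  simp only [mem_image, mem_univ, true_and] at he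
  obtain ⟨i, hi⟩ := he
  rw [← hi]
  exact C.adj i

theorem dig (hp : S_pk) : S_dig := by
  classical
  intro ε hε
  obtain ⟨n₀, hn₀⟩ := hp ε hε
  refine ⟨n₀ + 1, ?_⟩
  intro V _ _ hn E hl hb
  obtain ⟨c0, C0, hdis, hc0⟩ := hn₀ V (by omega) (og E) (ori_og E) (bal_og hb)
  have hsub : og E ⊆ E := filter_subset _ _
  have hR : ∀ e ∈ rep E, e.1 ≠ e.2 ∧ (e.1, e.2) ∈ E ∧ (e.2, e.1) ∈ E ∧
      Fintype.equivFin V e.1 < Fintype.equivFin V e.2 := by
    rintro ⟨a, b⟩ he
    simp only [rep, mem_filter, mem_dg] at he
    refine ⟨?_, he.1.1, he.1.2, he.2⟩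
    intro hab
    have hab' : a = b := hab
    rw [hab'] at he
    exact lt_irrefl _ he.2
  let en := (rep E).equivFin.symm
  have hen : ∀ i, (en i).1 ∈ rep E := fun i => (en i).2
  let D : Fin #(rep E) → DiCycle (Adj E) := fun i =>
    dcyc (en i).1.1 (en i).1.2 (hR _ (hen i)).1 (hR _ (hen i)).2.1 (hR _ (hen i)).2.2.1
  have hD : ∀ i, ∀ e ∈ arcs (D i), e = ((en i).1.1, (en i).1.2) ∨ e = ((en i).1.2, (en i).1.1) :=
    fun i => arcs_dcyc _ _ _ _ _
  have hDg : ∀ i, ∀ e ∈ arcs (D i), e ∉ og E := by
    intro i e he heo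
    obtain ⟨_, h1, h2, _⟩ := hR _ (hen i)
    rcases hD i e he with h | h
    · rw [h, mem_og] at heo
      exact heo.2 h2
    · rw [h, mem_og] at heo
      exact heo.2 h1
  refine ⟨#(rep E) + c0, Fin.append D (fun j => lift hsub (C0 j)), ?_, ?_⟩
  · intro i j
    refine Fin.addCases (fun i => ?_) (fun i => ?_) i
    · refine Fin.addCases (fun j => ?_) (fun j => ?_) j
      · intro hij
        rw [Fin.append_left, Fin.append_left]
        have hne : i ≠ j := fun h => hij (by rw [h])
        rw [Finset.disjoint_left]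
        intro e he he'
        obtain ⟨_, _, _, hi⟩ := hR _ (hen i)
        obtain ⟨_, _, _, hj⟩ := hR _ (hen j)
        have key : (en i).1 = (en j).1 → False := fun h => hne (en.injective (Subtype.ext h))
        rcases hD i e he with h | h <;> rcases hD j e he' with h' | h'
        · apply key
          have h3 : ((en i).1.1, (en i).1.2) = ((en j).1.1, (en j).1.2) := h.symm.trans h'
          exact h3
        · have h3 : ((en i).1.1, (en i).1.2) = ((en j).1.2, (en j).1.1) := h.symm.trans h'
          rw [Prod.mk.injEq] at h3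
          rw [h3.1, h3.2] at hi
          exact lt_asymm hi hj
        · have h3 : ((en i).1.2, (en i).1.1) = ((en j).1.1, (en j).1.2) := h.symm.trans h'
          rw [Prod.mk.injEq] at h3
          rw [h3.1, h3.2] at hi
          exact lt_asymm hi hj
        · apply key
          have h3 : ((en i).1.2, (en i).1.1) = ((en j).1.2, (en j).1.1) := h.symm.trans h'
          rw [Prod.mk.injEq] at h3
          exact Prod.ext h3.2 h3.1
      · intro _
        rw [Fin.append_left, Fin.append_right, arcs_lift, Finset.disjoint_left]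
        intro e he he'
        exact hDg i e he (arcs_sub _ e he')
    · refine Fin.addCases (fun j => ?_) (fun j => ?_) j
      · intro _
        rw [Fin.append_left, Fin.append_right, arcs_lift, Finset.disjoint_left]
        intro e he he'
        exact hDg j e he' (arcs_sub _ e he)
      · intro hij
        rw [Fin.append_right, Fin.append_right, arcs_lift, arcs_lift]
        exact hdis i j fun h => hij (by rw [h])
  · have hn1 : (0 : ℝ) < Fintype.card V := by
      have : 0 < Fintype.card V := by omega
      exact_mod_cast this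
    have hsum : ∑ v, (odg E v : ℝ) ^ 2 ≤ ∑ v, (odg (og E) v : ℝ) ^ 2 +
        (Fintype.card V : ℝ) * (2 * #(rep E)) := by
      have h1 : (2 * #(rep E) : ℝ) = ∑ v, (odg (dg E) v : ℝ) := by
        have h2 := sum_odg (dg E)
        rw [card_dg hl] at h2
        rw [← Nat.cast_sum, h2]
        push_cast
        ring
      rw [h1, mul_sum, ← sum_add_distrib]
      refine sum_le_sum fun v _ => ?_
      have h2 := odg_add E v
      have h3 := deg_le hb v
      have h4 : (odg E v : ℝ) = odg (dg E) v + odg (og E) v := by rw [← h2]; push_cast; ring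
      have h5 : (odg (dg E) v : ℝ) + 2 * odg (og E) v ≤ Fintype.card V := by exact_mod_cast h3
      have h6 : (0 : ℝ) ≤ odg (dg E) v := Nat.cast_nonneg _
      rw [h4]
      nlinarith [mul_le_mul_of_nonneg_left h5 h6]
    have h7 : (∑ v, (odg E v : ℝ) ^ 2) / (2 * Fintype.card V) ≤
        (∑ v, (odg (og E) v : ℝ) ^ 2) / (2 * Fintype.card V) + #(rep E) := by
      rw [div_add' _ _ _ (by positivity)]
      refine div_le_div_of_nonneg_right ?_ (by positivity)
      linarith
    push_cast
    linarith

end Pool.Agent.H661.TD
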