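import Pool.Agent.H278.TD.Def

/-!
# Spread fractional packings give packings (the weighted nibble)
-/

set_option autoImplicit false
set_option linter.all false

open Finset
open Pool.Agent.Results.MP_2634a8_co.Fractional (DiCycle)
open Pool.Agent.Q296.Nibble (Sys)
open Pool.Agent.H278.TD

namespace Pool.Agent.H784.TD

theorem nib : S_nib := by
  intro s η hη
  obtain ⟨b0, hb0, hN⟩ := Pool.Agent.Q296.Nibble.nibble (s + 1) hη
  refine ⟨b0, hb0, ?_⟩
  intro V _ _ E τ w hE hw hτ
  classical
  obtain ⟨N, hN1, hNb⟩ : ∃ N : ℕ, 0 < N ∧ 1 / (N : ℝ) ≤ b0 := by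
    obtain ⟨n, hn⟩ := exists_nat_one_div_lt hb0
    refine ⟨n + 1, Nat.succ_pos n, ?_⟩
    have := hn.le
    push_cast
    exact this
  have hNpos : (0 : ℝ) < N := by exact_mod_cast hN1
  -- the loads
  obtain ⟨ld, hlddef⟩ : ∃ ld : V × V → ℝ, ∀ x, ld x = ∑ S, if x ∈ S then w S else 0 :=
    ⟨fun x => ∑ S, if x ∈ S then w S else 0, fun _ => rfl⟩
  have hld1 : ∀ x, ld x ≤ 1 := by
    intro x
    rw [hlddef]
    have h := hw.load x
    rw [sum_filter] at h
    refine le_trans (le_of_eq (sum_congr rfl fun S _ => ?_)) h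
    split_ifs <;> rfl
  have hld0 : ∀ x, 0 ≤ ld x := by
    intro x
    rw [hlddef]
    refine sum_nonneg fun S _ => ?_
    split_ifs
    · exact hw.nonneg S
    · exact le_rfl
  have hcod : ∀ x y : V × V, x ≠ y → (∑ S, if (x ∈ S ∧ y ∈ S) then w S else 0) ≤ b0 := by
    intro x y hxy
    have h := hw.codeg x y hxy
    rw [sum_filter] at h
    refine le_trans (le_of_eq (sum_congr rfl fun S _ => ?_)) h
    split_ifs <;> rfl
  have hsub : ∀ g : Finset (V × V) → ℝ, (∀ S, w S = 0 → g S = 0) →
      ∑ S : {S : Finset (V × V) // w S ≠ 0}, g S.1 = ∑ S, g S := by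
    intro g hg
    have h1 : ∑ S : {S : Finset (V × V) // w S ≠ 0}, g S.1 =
        ∑ S ∈ univ.filter (fun S : Finset (V × V) => w S ≠ 0), g S := by
      rw [← Finset.sum_subtype_eq_sum_filter]
      rw [Finset.subtype_univ]
    rw [h1, sum_filter]
    refine sum_congr rfl fun S _ => ?_
    by_cases h : w S = 0
    · rw [if_neg (not_not.2 h), hg S h]
    · rw [if_pos h]
  -- the system
  let e : {S : Finset (V × V) // w S ≠ 0} ⊕ ((V × V) × Fin N) → Finset (V × V) :=
    Sum.elim (fun S => S.1) (fun x => {x.1})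
  let wt : {S : Finset (V × V) // w S ≠ 0} ⊕ ((V × V) × Fin N) → ℝ :=
    Sum.elim (fun S => w S.1) (fun x => (1 - ld x.1) / N)
  let val : {S : Finset (V × V) // w S ≠ 0} ⊕ ((V × V) × Fin N) → ℝ :=
    Sum.elim (fun _ => 1) (fun _ => 0)
  have he1 : ∀ S, e (Sum.inl S) = S.1 := fun _ => rfl
  have he2 : ∀ x, e (Sum.inr x) = {x.1} := fun _ => rfl
  have hw1 : ∀ S, wt (Sum.inl S) = w S.1 := fun _ => rfl
  have hw2 : ∀ x, wt (Sum.inr x) = (1 - ld x.1) / N := fun _ => rfl
  have hv1 : ∀ S, val (Sum.inl S) = 1 := fun _ => rfl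
  have hv2 : ∀ x, val (Sum.inr x) = 0 := fun _ => rfl
  have sys : Sys (s + 1) b0 e wt := by
    refine ⟨?_, ?_, ?_, ?_, ?_, ?_⟩
    · rintro (S | x)
      · rw [hw1]; exact hw.nonneg _
      · rw [hw2]; exact div_nonneg (sub_nonneg.2 (hld1 _)) hNpos.le
    · rintro (S | x)
      · rw [hw1]
        obtain ⟨C, hC, hl⟩ := hw.supp S.1 S.2
        have h01 : (0 : Fin (C.len + 2)) ≠ 1 := by
          intro h
          have := congrArg Fin.val h
          simp at this
        have ha : (C.vert 0, C.vert (0 + 1)) ∈ S.1 := by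
          rw [← hC]
          exact mem_image_of_mem _ (mem_univ _)
        have hb : (C.vert 1, C.vert (1 + 1)) ∈ S.1 := by
          rw [← hC]
          exact mem_image_of_mem (fun i => (C.vert i, C.vert (i + 1))) (mem_univ _)
        have hne : (C.vert 0, C.vert (0 + 1)) ≠ (C.vert 1, C.vert (1 + 1)) := by
          intro h
          exact h01 (C.inj (congrArg Prod.fst h))
        refine le_trans ?_ (hcod _ _ hne)
        have h2 := single_le_sum (s := univ)
          (f := fun T : Finset (V × V) => if ((C.vert 0, C.vert (0 + 1)) ∈ T ∧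
            (C.vert 1, C.vert (1 + 1)) ∈ T) then w T else 0)
          (fun T _ => by
            show 0 ≤ (if ((C.vert 0, C.vert (0 + 1)) ∈ T ∧
              (C.vert 1, C.vert (1 + 1)) ∈ T) then w T else 0)
            split_ifs
            · exact hw.nonneg T
            · exact le_rfl) (mem_univ S.1)
        refine le_trans (le_of_eq ?_) h2
        show w S.1 = (if ((C.vert 0, C.vert (0 + 1)) ∈ S.1 ∧
              (C.vert 1, C.vert (1 + 1)) ∈ S.1) then w S.1 else 0)
        rw [if_pos ⟨ha, hb⟩]
      · rw [hw2]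
        refine le_trans ?_ hNb
        have := hld0 x.1
        exact div_le_div_of_nonneg_right (by linarith) hNpos.le
    · rintro (S | x)
      · rw [he1]
        obtain ⟨C, hC, hl⟩ := hw.supp S.1 S.2
        rw [← hC]
        have h1 : #(arcs C) ≤ C.len + 2 := by
          unfold arcs
          refine card_image_le.trans ?_
          rw [card_univ, Fintype.card_fin]
        exact h1.trans (hl.trans (Nat.le_succ s))
      · rw [he2, card_singleton]
        omega
    · rintro (S | x)
      · rw [he1]
        obtain ⟨C, hC, hl⟩ := hw.supp S.1 S.2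
        rw [← hC]
        exact ⟨_, mem_image_of_mem (fun i => (C.vert i, C.vert (i + 1))) (mem_univ 0)⟩
      · rw [he2]
        exact singleton_nonempty _
    · intro x
      rw [sum_filter, Fintype.sum_sum_type]
      have h1 : (∑ S : {S : Finset (V × V) // w S ≠ 0}, if x ∈ e (Sum.inl S) then wt (Sum.inl S) else 0) =
          ld x := by
        rw [hlddef, ← hsub (fun S => if x ∈ S then w S else 0)
          (fun S hS => by rw [hS]; split_ifs <;> rfl)]
        refine sum_congr rfl fun S _ => ?_
        rw [he1, hw1]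
      have h2 : (∑ z : (V × V) × Fin N, if x ∈ e (Sum.inr z) then wt (Sum.inr z) else 0) =
          1 - ld x := by
        rw [Fintype.sum_prod_type]
        rw [Finset.sum_eq_single x]
        · have h3 : ∀ i : Fin N, (if x ∈ e (Sum.inr (x, i)) then wt (Sum.inr (x, i)) else 0) =
              (1 - ld x) / N := by
            intro i
            rw [if_pos (by rw [he2]; exact mem_singleton_self _), hw2]
          rw [sum_congr rfl fun i _ => h3 i, sum_const, card_univ, Fintype.card_fin, nsmul_eq_mul]
          field_simp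
        · intro y _ hy
          refine sum_eq_zero fun i _ => ?_
          rw [if_neg]
          rw [he2, mem_singleton]
          exact fun h => hy h.symm
        · intro h
          exact absurd (mem_univ x) h
      rw [h1, h2]
      ring
    · intro x y hxy
      rw [sum_filter, Fintype.sum_sum_type]
      have h1 : (∑ S : {S : Finset (V × V) // w S ≠ 0},
          if (x ∈ e (Sum.inl S) ∧ y ∈ e (Sum.inl S)) then wt (Sum.inl S) else 0) ≤ b0 := by
        refine le_trans (le_of_eq ?_) (hcod x y hxy)
        rw [← hsub (fun S => if (x ∈ S ∧ y ∈ S) then w S else 0)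
          (fun S hS => by rw [hS]; split_ifs <;> rfl)]
        refine sum_congr rfl fun S _ => ?_
        rw [he1, hw1]
      have h2 : (∑ z : (V × V) × Fin N,
          if (x ∈ e (Sum.inr z) ∧ y ∈ e (Sum.inr z)) then wt (Sum.inr z) else 0) = 0 := by
        refine sum_eq_zero fun z _ => ?_
        rw [if_neg]
        rw [he2, mem_singleton, mem_singleton]
        rintro ⟨h3, h4⟩
        exact hxy (h3.trans h4.symm)
      rw [h2, add_zero]
      exact h1
  obtain ⟨M, hM1, hM2⟩ := hN (V × V) ({S : Finset (V × V) // w S ≠ 0} ⊕ ((V × V) × Fin N)) e wt b0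
    hb0.le le_rfl sys val (by
      rintro (S | x)
      · rw [hv1]; exact zero_le_one
      · rw [hv2])
  -- the elements `inl S` of `M`
  obtain ⟨L, hL⟩ : ∃ L : Finset {S : Finset (V × V) // w S ≠ 0}, L = M.toLeft := ⟨_, rfl⟩
  have hLM : ∀ S ∈ L, Sum.inl S ∈ M := by
    intro S hS
    rw [hL] at hS
    exact Finset.mem_toLeft.1 hS
  have hsumM : ∑ j ∈ M, val j = #L := by
    rw [Finset.sum_sum_eq_sum_toLeft_add_sum_toRight]
    rw [sum_congr rfl fun S _ => hv1 S, sum_congr rfl fun x _ => hv2 x]
    rw [sum_const_zero, add_zero, sum_const, nsmul_eq_mul, mul_one, hL]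
  have hsumw : ∑ j, wt j * val j = ∑ S, w S := by
    rw [Fintype.sum_sum_type]
    have h1 : ∀ S, wt (Sum.inl S) * val (Sum.inl S) = w S.1 := by
      intro S
      rw [hw1, hv1, mul_one]
    have h2 : ∀ x, wt (Sum.inr x) * val (Sum.inr x) = 0 := by
      intro x
      rw [hv2, mul_zero]
    rw [sum_congr rfl fun S _ => h1 S, sum_congr rfl fun x _ => h2 x, sum_const_zero, add_zero]
    exact hsub w fun S h => h
  choose C hC hl using fun S : {S : Finset (V × V) // w S ≠ 0} => hw.supp S.1 S.2
  refine ⟨#L, fun i => C (L.equivFin.symm i).1, ?_, ?_⟩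
  · intro i j hij
    rw [hC, hC]
    have h1 : (L.equivFin.symm i).1 ≠ (L.equivFin.symm j).1 := by
      intro h
      exact hij (L.equivFin.symm.injective (Subtype.ext h))
    have h2 := hM1 _ (hLM _ (L.equivFin.symm i).2) _ (hLM _ (L.equivFin.symm j).2)
      (fun h => h1 (Sum.inl_injective h))
    rw [he1, he1] at h2
    exact h2
  · rcases le_or_gt η 1 with h1 | h1
    · have h2 : (1 - η) * τ ≤ (1 - η) * ∑ S, w S :=
        mul_le_mul_of_nonneg_left hw.total (by linarith)
      rw [← hsumw] at h2
      rw [hsumM] at hM2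
      exact h2.trans hM2
    · have h2 : (1 - η) * τ ≤ 0 := mul_nonpos_of_nonpos_of_nonneg (by linarith) hτ
      exact h2.trans (Nat.cast_nonneg _)

end Pool.Agent.H784.TD
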